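import Mathlib

set_option autoImplicit false

/-! # Gaussian matrices -/

noncomputable section

namespace Pool.Agent.R563.MV

open MeasureTheory ProbabilityTheory Finset Complex
open scoped RealInnerProductSpace

/-- square matrices -/
abbrev Mx (n : ℕ) : Type := Matrix (Fin n) (Fin n) ℝ

instance instMeasMx (n : ℕ) : MeasurableSpace (Mx n) :=
  inferInstanceAs (MeasurableSpace (Fin n → Fin n → ℝ))

instance instBorelMx (n : ℕ) : BorelSpace (Mx n) :=
  inferInstanceAs (BorelSpace (Fin n → Fin n → ℝ))

instance instScMx (n : ℕ) : SecondCountableTopology (Mx n) :=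
  inferInstanceAs (SecondCountableTopology (Fin n → Fin n → ℝ))

variable {n : ℕ}

theorem measurable_mx_of {Ω : Type} [MeasurableSpace Ω] {f : Ω → Mx n}
    (h : ∀ i j, Measurable fun ω => f ω i j) : Measurable f :=
  measurable_pi_lambda _ fun i => measurable_pi_lambda _ fun j => h i j

theorem measurable_entry (i j : Fin n) : Measurable fun A : Mx n => A i j :=
  (measurable_pi_apply j).comp (measurable_pi_apply i)

/-- from vectors to matrices -/
def mt (g : EuclideanSpace ℝ (Fin n × Fin n)) : Mx n := Matrix.of fun i j => g (i, j)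

/-- from matrices to vectors -/
def tm (A : Mx n) : EuclideanSpace ℝ (Fin n × Fin n) := WithLp.toLp 2 fun e => A e.1 e.2

theorem mt_tm (A : Mx n) : mt (tm A) = A := rfl

theorem tm_mt (g : EuclideanSpace ℝ (Fin n × Fin n)) : tm (mt g) = g := rfl

theorem measurable_mt : Measurable (mt : EuclideanSpace ℝ (Fin n × Fin n) → Mx n) := by
  apply measurable_mx_of
  intro i j
  unfold mt
  simp only [Matrix.of_apply]
  fun_prop

theorem measurable_tm : Measurable (tm : Mx n → EuclideanSpace ℝ (Fin n × Fin n)) := by
  unfold tm
  apply (by fun_prop : Measurable (WithLp.toLp 2 : (Fin n × Fin n → ℝ) →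
    EuclideanSpace ℝ (Fin n × Fin n))).comp
  apply measurable_pi_lambda
  intro e
  exact measurable_entry e.1 e.2

/-- the law of a Gaussian matrix -/
def gM (n : ℕ) : Measure (Mx n) := (stdGaussian (EuclideanSpace ℝ (Fin n × Fin n))).map mt

instance : IsProbabilityMeasure (gM n) := by
  unfold gM
  exact Measure.isProbabilityMeasure_map measurable_mt.aemeasurable

/-- the Frobenius inner product -/
def ip (G H : Mx n) : ℝ := ∑ i, ∑ j, G i j * H i j

theorem inner_tm (G H : Mx n) : ⟪tm G, tm H⟫ = ip G H := by
  unfold ip tm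
  simp only [PiLp.inner_apply, RCLike.inner_apply, conj_trivial]
  rw [Fintype.sum_prod_type]
  refine Finset.sum_congr rfl fun i _ => Finset.sum_congr rfl fun j _ => ?_
  ring

theorem gM_char (H : Mx n) : ∫ G, cexp (ip G H * I) ∂(gM n) = cexp (-(ip H H / 2 : ℝ)) := by
  have h1 : Measurable fun G : Mx n => cexp (ip G H * I) := by
    have : Measurable fun G : Mx n => ip G H := by
      unfold ip
      refine Finset.measurable_sum _ fun i _ => Finset.measurable_sum _ fun j _ => ?_
      exact (measurable_entry i j).mul_const _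
    fun_prop
  unfold gM
  rw [integral_map measurable_mt.aemeasurable h1.aestronglyMeasurable]
  have h2 := charFun_stdGaussian (tm H)
  rw [charFun_apply] at h2
  have h3 : ∀ g : EuclideanSpace ℝ (Fin n × Fin n), (ip (mt g) H : ℝ) = ⟪g, tm H⟫ := by
    intro g
    rw [← inner_tm, tm_mt]
  simp only [h3]
  rw [h2]
  congr 1
  have h4 : ‖tm H‖ ^ 2 = ip H H := by
    rw [← inner_tm, real_inner_self_eq_norm_sq]
  rw [← Complex.ofReal_pow, h4]
  push_cast
  ring

/-- sums of linear images of independent Gaussian matrices -/
theorem mix {T1 T2 S1 S2 : Mx n → Mx n} (hT1 : Measurable T1) (hT2 : Measurable T2)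
    (h1 : ∀ G H, ip (T1 G) H = ip G (S1 H)) (h2 : ∀ G H, ip (T2 G) H = ip G (S2 H))
    (h : ∀ H, ip (S1 H) (S1 H) + ip (S2 H) (S2 H) = ip H H) :
    ((gM n).prod (gM n)).map (fun p => T1 p.1 + T2 p.2) = gM n := by
  have hadd : Measurable fun p : Mx n × Mx n => T1 p.1 + T2 p.2 := by
    apply measurable_mx_of
    intro i j
    exact ((measurable_entry i j).comp (hT1.comp measurable_fst)).add
      ((measurable_entry i j).comp (hT2.comp measurable_snd))
  have key : (((gM n).prod (gM n)).map (fun p => T1 p.1 + T2 p.2)).map tm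
      = stdGaussian (EuclideanSpace ℝ (Fin n × Fin n)) := by
    rw [Measure.map_map measurable_tm hadd]
    have hm : Measurable (tm ∘ fun p : Mx n × Mx n => T1 p.1 + T2 p.2) := measurable_tm.comp hadd
    have : IsProbabilityMeasure (((gM n).prod (gM n)).map
        (tm ∘ fun p : Mx n × Mx n => T1 p.1 + T2 p.2)) :=
      Measure.isProbabilityMeasure_map hm.aemeasurable
    apply Measure.ext_of_charFun
    funext t
    rw [charFun_apply, integral_map hm.aemeasurable
      (by fun_prop : Measurable fun y : EuclideanSpace ℝ (Fin n × Fin n) =>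
        cexp (⟪y, t⟫ * I)).aestronglyMeasurable, charFun_stdGaussian]
    have h3 : ∀ p : Mx n × Mx n, cexp (⟪(tm ∘ fun p : Mx n × Mx n => T1 p.1 + T2 p.2) p, t⟫ * I)
        = cexp (ip p.1 (S1 (mt t)) * I) * cexp (ip p.2 (S2 (mt t)) * I) := by
      intro p
      rw [← Complex.exp_add]
      congr 1
      have h4 : ⟪(tm ∘ fun p : Mx n × Mx n => T1 p.1 + T2 p.2) p, t⟫
          = ip p.1 (S1 (mt t)) + ip p.2 (S2 (mt t)) := by
        rw [← h1, ← h2, ← tm_mt t, Function.comp_apply, inner_tm, mt_tm]
        unfold ip
        simp only [Matrix.add_apply, add_mul, Finset.sum_add_distrib]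
      rw [h4]
      push_cast
      ring
    simp only [h3]
    rw [integral_prod_mul (fun G : Mx n => cexp (ip G (S1 (mt t)) * I))
      (fun G : Mx n => cexp (ip G (S2 (mt t)) * I)), gM_char, gM_char, ← Complex.exp_add]
    congr 1
    have h5 : ‖t‖ ^ 2 = ip (mt t) (mt t) := by
      rw [← inner_tm, tm_mt, real_inner_self_eq_norm_sq]
    rw [← Complex.ofReal_pow, h5, ← h (mt t)]
    push_cast
    ring
  have h6 := congrArg (fun μ => Measure.map mt μ) key
  simp only at h6
  rw [Measure.map_map measurable_mt measurable_tm] at h6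
  have h7 : (mt ∘ tm : Mx n → Mx n) = id := funext fun A => mt_tm A
  rw [h7, Measure.map_id] at h6
  exact h6

/-! ### Algebra for the Frobenius inner product -/

theorem ip_eq_trace (G H : Mx n) : ip G H = (G * H.transpose).trace := by
  unfold ip Matrix.trace
  refine Finset.sum_congr rfl fun i _ => ?_
  rw [Matrix.diag_apply, Matrix.mul_apply]
  rfl

theorem ip_mul_right (G H R : Mx n) : ip (G * R) H = ip G (H * R.transpose) := by
  rw [ip_eq_trace, ip_eq_trace, Matrix.transpose_mul, Matrix.transpose_transpose,
    Matrix.mul_assoc]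

theorem ip_mul_left (G H Q : Mx n) : ip (Q * G) H = ip G (Q.transpose * H) := by
  rw [ip_eq_trace, ip_eq_trace, Matrix.transpose_mul, Matrix.transpose_transpose,
    Matrix.mul_assoc, Matrix.trace_mul_comm, Matrix.mul_assoc]

theorem ip_sub_left (G G' H : Mx n) : ip (G - G') H = ip G H - ip G' H := by
  unfold ip
  simp only [Matrix.sub_apply, sub_mul, Finset.sum_sub_distrib]

theorem ip_comm (G H : Mx n) : ip G H = ip H G := by
  unfold ip
  exact Finset.sum_congr rfl fun i _ => Finset.sum_congr rfl fun j _ => mul_comm _ _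

/-- symmetric idempotent matrices -/
structure IsPr (P : Mx n) : Prop where
  symm : P.transpose = P
  idem : P * P = P

theorem measurable_mul_fixed (Q P : Mx n) : Measurable fun G : Mx n => Q * G * P := by
  have : Continuous fun G : Mx n => Q * G * P := by fun_prop
  exact this.measurable

/-- replacing a block by an independent copy -/
theorem mix_block {Q P : Mx n} (hQ : IsPr Q) (hP : IsPr P) :
    ((gM n).prod (gM n)).map (fun p => (p.1 - Q * p.1 * P) + Q * p.2 * P) = gM n := by
  have hself : ∀ G H : Mx n, ip (Q * G * P) H = ip G (Q * H * P) := by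
    intro G H
    rw [ip_mul_right, ip_mul_left, hQ.symm, hP.symm, Matrix.mul_assoc]
  have hidem : ∀ G : Mx n, Q * (Q * G * P) * P = Q * G * P := by
    intro G
    rw [← Matrix.mul_assoc, ← Matrix.mul_assoc, hQ.idem, Matrix.mul_assoc _ P P, hP.idem]
  refine mix (T1 := fun G => G - Q * G * P) (T2 := fun G => Q * G * P)
    (S1 := fun H => H - Q * H * P) (S2 := fun H => Q * H * P) ?_ (measurable_mul_fixed Q P) ?_
    hself ?_
  · have : Continuous fun G : Mx n => G - Q * G * P := by fun_prop
    exact this.measurable
  · intro G H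
    rw [ip_sub_left, hself, ip_comm G (H - Q * H * P), ip_sub_left, ip_comm H G,
      ip_comm (Q * H * P) G]
  · intro H
    have e1 : ip (Q * H * P) (Q * H * P) = ip H (Q * H * P) := by
      rw [hself, hidem]
    have e2 : ip (H - Q * H * P) (H - Q * H * P) = ip H H - ip H (Q * H * P) := by
      rw [ip_sub_left, ip_comm H (H - Q * H * P), ip_comm (Q * H * P) (H - Q * H * P), ip_sub_left,
        ip_sub_left, e1, ip_comm (Q * H * P) H]
      ring
    rw [e1, e2]
    ring

/-- invariance under orthogonal maps -/
theorem rot_right {R : Mx n} (hR : R * R.transpose = 1) :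
    (gM n).map (fun G => G * R) = gM n := by
  have hRt : R.transpose * R = 1 := mul_eq_one_comm.1 hR
  have h := mix (n := n) (T1 := fun G => G * R) (T2 := fun _ => 0) (S1 := fun H => H * R.transpose)
    (S2 := fun _ => 0) (by
      have : Continuous fun G : Mx n => G * R := by fun_prop
      exact this.measurable) measurable_const (fun G H => ip_mul_right G H R)
    (fun G H => by unfold ip; simp) (fun H => by
      have e : ip (0 : Mx n) 0 = 0 := by unfold ip; simp
      rw [e, add_zero, ip_mul_right, Matrix.transpose_transpose, Matrix.mul_assoc, hRt,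
        Matrix.mul_one])
  simp only [add_zero] at h
  have h2 : ((gM n).prod (gM n)).map (fun p => p.1 * R)
      = (((gM n).prod (gM n)).map Prod.fst).map (fun G => G * R) := by
    rw [Measure.map_map _ measurable_fst]
    · rfl
    · have : Continuous fun G : Mx n => G * R := by fun_prop
      exact this.measurable
  rw [h2, Measure.map_fst_prod, measure_univ, one_smul] at h
  exact h

end Pool.Agent.R563.MV
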