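import Mathlib

set_option autoImplicit false

/-! # Rotation invariant directions -/

noncomputable section

namespace Pool.Agent.R563.MV

open MeasureTheory Finset
open scoped RealInnerProductSpace

variable {E Ω : Type} [NormedAddCommGroup E] [InnerProductSpace ℝ E] [FiniteDimensional ℝ E]
  [MeasurableSpace Ω] {μ : Measure Ω} [IsProbabilityMeasure μ]

/-- squared cosine, times the squared norm of `w` -/
def qt (w u : E) : ℝ := ⟪w, u⟫ ^ 2 / ‖u‖ ^ 2

theorem qt_nonneg (w u : E) : 0 ≤ qt w u := by unfold qt; positivity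

theorem qt_le (w u : E) : qt w u ≤ ‖w‖ ^ 2 := by
  unfold qt
  apply div_le_of_le_mul₀ (by positivity) (by positivity)
  rw [← mul_pow]
  apply sq_le_sq'
  · have := neg_abs_le ⟪w, u⟫
    have h2 := abs_real_inner_le_norm w u
    linarith
  · exact real_inner_le_norm w u

theorem qt_smul (c : ℝ) (w u : E) : qt (c • w) u = c ^ 2 * qt w u := by
  unfold qt
  rw [real_inner_smul_left]
  ring

theorem qt_integrable {u : Ω → E} (hu : ∀ w, AEStronglyMeasurable (fun ω => qt w (u ω)) μ)
    (w : E) : Integrable (fun ω => qt w (u ω)) μ := by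
  refine Integrable.mono' (integrable_const (‖w‖ ^ 2)) (hu w) ?_
  refine Filter.Eventually.of_forall fun ω => ?_
  rw [Real.norm_of_nonneg (qt_nonneg _ _)]
  exact qt_le _ _

/-- if the law of the direction of `u` is invariant under rotations of `L`, then its squared
cosine with any vector has mean at most `1 / dim L` -/
theorem sphere_bound (L : Submodule ℝ E) (u : Ω → E)
    (hu : ∀ w, AEStronglyMeasurable (fun ω => qt w (u ω)) μ) (huL : ∀ᵐ ω ∂μ, u ω ∈ L)
    (hsym : ∀ w ∈ L, ∀ w' ∈ L, ‖w‖ = ‖w'‖ → ∫ ω, qt w (u ω) ∂μ ≤ ∫ ω, qt w' (u ω) ∂μ)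
    (hd : 0 < Module.finrank ℝ L) (w : E) :
    ∫ ω, qt w (u ω) ∂μ ≤ ‖w‖ ^ 2 / Module.finrank ℝ L := by
  set d := Module.finrank ℝ L with hdef
  let e := stdOrthonormalBasis ℝ L
  -- replace `w` by its projection
  set wL : E := L.starProjection w with hwL
  have hwLL : wL ∈ L := Submodule.starProjection_apply_mem L w
  have hnorm : ‖wL‖ ≤ ‖w‖ := L.norm_starProjection_apply_le w
  have h1 : ∫ ω, qt w (u ω) ∂μ = ∫ ω, qt wL (u ω) ∂μ := by
    apply integral_congr_ae
    filter_upwards [huL] with ω hω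
    unfold qt
    congr 2
    have h2 : ⟪w - wL, u ω⟫ = 0 := by
      have := L.sub_starProjection_mem_orthogonal w
      rw [real_inner_comm]
      exact (Submodule.mem_orthogonal L _).1 this _ hω
    rw [inner_sub_left] at h2
    linarith
  have h3 : ∀ k, ∫ ω, qt wL (u ω) ∂μ ≤ ‖wL‖ ^ 2 * ∫ ω, qt ((e k : L) : E) (u ω) ∂μ := by
    intro k
    have h4 := hsym wL hwLL (‖wL‖ • ((e k : L) : E)) (L.smul_mem _ (e k).2) (by
      rw [norm_smul, norm_norm]
      have : ‖((e k : L) : E)‖ = 1 := by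
        rw [← Submodule.coe_norm]; exact e.orthonormal.1 k
      rw [this, mul_one])
    refine h4.trans (le_of_eq ?_)
    simp only [qt_smul]
    rw [integral_const_mul]
  have h5 : (d : ℝ) * ∫ ω, qt wL (u ω) ∂μ
      ≤ ‖wL‖ ^ 2 * ∑ k, ∫ ω, qt ((e k : L) : E) (u ω) ∂μ := by
    rw [Finset.mul_sum]
    calc (d : ℝ) * ∫ ω, qt wL (u ω) ∂μ = ∑ _k : Fin d, ∫ ω, qt wL (u ω) ∂μ := by
          rw [Finset.sum_const, Finset.card_univ, Fintype.card_fin, nsmul_eq_mul]
      _ ≤ _ := Finset.sum_le_sum fun k _ => h3 k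
  have h6 : ∑ k, ∫ ω, qt ((e k : L) : E) (u ω) ∂μ ≤ 1 := by
    rw [← integral_finsetSum _ fun k _ => qt_integrable hu _]
    calc ∫ ω, ∑ k, qt ((e k : L) : E) (u ω) ∂μ ≤ ∫ _ω, (1 : ℝ) ∂μ := by
          apply integral_mono_ae
          · exact integrable_finsetSum _ fun k _ => qt_integrable hu _
          · exact integrable_const _
          · refine Filter.Eventually.of_forall fun ω => ?_
            simp only [qt]
            rw [← Finset.sum_div]
            apply div_le_one_of_le₀ _ (by positivity)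
            have hon : Orthonormal ℝ (fun k => ((e k : L) : E)) :=
              e.orthonormal.comp_linearIsometry L.subtypeₗᵢ
            have := hon.sum_inner_products_le (u ω) (s := univ)
            simpa only [Real.norm_eq_abs, sq_abs] using this
      _ = 1 := by simp
  have hd' : (0 : ℝ) < d := by exact_mod_cast hd
  rw [h1, le_div_iff₀ hd', mul_comm]
  calc (d : ℝ) * ∫ ω, qt wL (u ω) ∂μ
      ≤ ‖wL‖ ^ 2 * ∑ k, ∫ ω, qt ((e k : L) : E) (u ω) ∂μ := h5
    _ ≤ ‖wL‖ ^ 2 * 1 := mul_le_mul_of_nonneg_left h6 (by positivity)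
    _ ≤ ‖w‖ ^ 2 := by
        rw [mul_one]
        exact pow_le_pow_left₀ (norm_nonneg _) hnorm 2

end Pool.Agent.R563.MV
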