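import Pool.Agent.R563.MV.Proj
import Pool.Agent.R563.MV.Sphere

set_option autoImplicit false

/-! # The direction of the unknown part of the solution -/

noncomputable section

namespace Pool.Agent.R563.MV

open MeasureTheory ProbabilityTheory Finset Matrix
open scoped RealInnerProductSpace

variable {n : ℕ}

/-- squared cosine, times the squared norm of `w` -/
def qtv (w u : Fin n → ℝ) : ℝ := (w ⬝ᵥ u) ^ 2 / (u ⬝ᵥ u)

theorem inner_toLp (x y : Fin n → ℝ) :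
    ⟪(WithLp.toLp 2 x : EuclideanSpace ℝ (Fin n)), WithLp.toLp 2 y⟫ = x ⬝ᵥ y := by
  simp [PiLp.inner_apply, dotProduct, mul_comm]

theorem norm_toLp_sq (x : Fin n → ℝ) :
    ‖(WithLp.toLp 2 x : EuclideanSpace ℝ (Fin n))‖ ^ 2 = x ⬝ᵥ x := by
  rw [← inner_toLp, real_inner_self_eq_norm_sq]

theorem qt_toLp (w u : Fin n → ℝ) :
    qt (WithLp.toLp 2 w : EuclideanSpace ℝ (Fin n)) (WithLp.toLp 2 u) = qtv w u := by
  unfold qt qtv
  rw [inner_toLp, norm_toLp_sq]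

theorem qtv_nonneg (w u : Fin n → ℝ) : 0 ≤ qtv w u := by
  rw [← qt_toLp]; exact qt_nonneg _ _

theorem qtv_le (w u : Fin n → ℝ) : qtv w u ≤ w ⬝ᵥ w := by
  rw [← qt_toLp, ← norm_toLp_sq]; exact qt_le _ _

theorem dot_self_nonneg (x : Fin n → ℝ) : 0 ≤ x ⬝ᵥ x := by
  rw [← norm_toLp_sq]; positivity

/-- the unknown part of the solution -/
def uu (A0 Q P : Mx n) (b : Fin n → ℝ) (G : Mx n) : Fin n → ℝ :=
  P *ᵥ ((A0 + Q * G * P)⁻¹ *ᵥ b)

theorem measurable_inv_mulVec {Ω : Type} [MeasurableSpace Ω] {A : Ω → Mx n} (hA : Measurable A)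
    (b : Fin n → ℝ) : Measurable fun ω => (A ω)⁻¹ *ᵥ b := by
  have h1 : (fun ω => (A ω)⁻¹ *ᵥ b) = fun ω => (A ω).det⁻¹ • ((A ω).adjugate *ᵥ b) := by
    funext ω
    rw [Matrix.inv_def, Ring.inverse_eq_inv', Matrix.smul_mulVec]
  rw [h1]
  have h2 : Measurable fun ω => (A ω).det :=
    (Continuous.matrix_det continuous_id).measurable.comp hA
  have h3 : Measurable fun ω => (A ω).adjugate *ᵥ b := by
    have : Continuous fun A : Mx n => A.adjugate *ᵥ b :=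
      (Continuous.matrix_adjugate continuous_id).matrix_mulVec continuous_const
    exact this.measurable.comp hA
  exact h2.inv.smul h3

theorem measurable_uu (A0 Q P : Mx n) (b : Fin n → ℝ) : Measurable (uu A0 Q P b) := by
  have h1 : Measurable fun G : Mx n => A0 + Q * G * P := by
    have : Continuous fun G : Mx n => A0 + Q * G * P := by fun_prop
    exact this.measurable
  have h2 := measurable_inv_mulVec h1 b
  have h3 : Continuous fun x : Fin n → ℝ => P *ᵥ x := by fun_prop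
  exact h3.measurable.comp h2

theorem measurable_qtv {Ω : Type} [MeasurableSpace Ω] {u : Ω → Fin n → ℝ} (hu : Measurable u)
    (w : Fin n → ℝ) : Measurable fun ω => qtv w (u ω) := by
  have h1 : Measurable fun ω => w ⬝ᵥ u ω := by
    have : Continuous fun x : Fin n → ℝ => w ⬝ᵥ x := by fun_prop
    exact this.measurable.comp hu
  have h2 : Measurable fun ω => u ω ⬝ᵥ u ω := by
    have : Continuous fun x : Fin n → ℝ => x ⬝ᵥ x := by fun_prop
    exact this.measurable.comp hu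
  exact (h1.pow_const 2).div h2

/-- the space containing the unknown part -/
def LL (A0 P : Mx n) (b : Fin n → ℝ) : Submodule ℝ (Fin n → ℝ) :=
  ((Submodule.span ℝ {b}).comap A0.mulVecLin).map P.mulVecLin

theorem mem_LL {A0 P : Mx n} {b y : Fin n → ℝ} :
    y ∈ LL A0 P b ↔ ∃ x, (∃ c : ℝ, c • b = A0 *ᵥ x) ∧ P *ᵥ x = y := by
  unfold LL
  rw [Submodule.mem_map]
  constructor
  · rintro ⟨x, hx, hxy⟩
    rw [Submodule.mem_comap, Submodule.mem_span_singleton] at hx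
    exact ⟨x, hx, hxy⟩
  · rintro ⟨x, hx, hxy⟩
    refine ⟨x, ?_, hxy⟩
    rw [Submodule.mem_comap, Submodule.mem_span_singleton]
    exact hx

section

variable {Q P A0 : Mx n} {b : Fin n → ℝ}

theorem solve {A : Mx n} (hA : A.det ≠ 0) (b : Fin n → ℝ) : A *ᵥ (A⁻¹ *ᵥ b) = b := by
  rw [Matrix.mulVec_mulVec, Matrix.mul_nonsing_inv _ (isUnit_iff_ne_zero.2 hA), Matrix.one_mulVec]

theorem solve_unique {A : Mx n} (hA : A.det ≠ 0) {x b : Fin n → ℝ} (h : A *ᵥ x = b) :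
    x = A⁻¹ *ᵥ b := by
  rw [← h, Matrix.mulVec_mulVec, Matrix.nonsing_inv_mul _ (isUnit_iff_ne_zero.2 hA),
    Matrix.one_mulVec]

theorem facts (hQ : IsPr Q) (hA0 : Q * A0 = 0) (hb : Q *ᵥ b = 0) {G : Mx n}
    (hA : (A0 + Q * G * P).det ≠ 0) :
    A0 *ᵥ ((A0 + Q * G * P)⁻¹ *ᵥ b) = b ∧ Q *ᵥ (G *ᵥ uu A0 Q P b G) = 0 := by
  have h1 := solve hA b
  set x := (A0 + Q * G * P)⁻¹ *ᵥ b with hx
  have h2 : Q *ᵥ (G *ᵥ (P *ᵥ x)) = 0 := by
    have h3 : Q *ᵥ ((A0 + Q * G * P) *ᵥ x) = Q *ᵥ b := by rw [h1]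
    rw [hb, Matrix.mulVec_mulVec, mul_add, hA0, zero_add, ← mul_assoc, ← mul_assoc, hQ.idem,
      ← Matrix.mulVec_mulVec, ← Matrix.mulVec_mulVec] at h3
    exact h3
  refine ⟨?_, h2⟩
  rw [Matrix.add_mulVec, ← Matrix.mulVec_mulVec, ← Matrix.mulVec_mulVec, h2, add_zero] at h1
  exact h1

theorem uu_mem (hQ : IsPr Q) (hA0 : Q * A0 = 0) (hb : Q *ᵥ b = 0) {G : Mx n}
    (hA : (A0 + Q * G * P).det ≠ 0) : uu A0 Q P b G ∈ LL A0 P b := by
  rw [mem_LL]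
  exact ⟨_, ⟨1, by rw [one_smul]; exact (facts hQ hA0 hb hA).1.symm⟩, rfl⟩

theorem kernel (y : Fin n → ℝ) (hy : y ∈ LL A0 P b) {G : Mx n}
    (hA : (A0 + Q * G * P).det ≠ 0) (hG : Q *ᵥ (G *ᵥ y) = 0) :
    ∃ c : ℝ, y = c • uu A0 Q P b G := by
  rw [mem_LL] at hy
  obtain ⟨x, ⟨c, hc⟩, rfl⟩ := hy
  refine ⟨c, ?_⟩
  have h1 : (A0 + Q * G * P) *ᵥ x = c • b := by
    rw [Matrix.add_mulVec, ← Matrix.mulVec_mulVec, ← Matrix.mulVec_mulVec, hG, add_zero, hc]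
  have h2 := solve_unique hA h1
  unfold uu
  rw [h2, Matrix.mulVec_smul, Matrix.mulVec_smul]

theorem rot_le (hQ : IsPr Q) (hA0 : Q * A0 = 0) (hb : Q *ᵥ b = 0) {R : Mx n}
    (hR : R * Rᵀ = 1) (hRL : ∀ y ∈ LL A0 P b, R *ᵥ y ∈ LL A0 P b)
    {G : Mx n} (hA : (A0 + Q * G * P).det ≠ 0) (hA' : (A0 + Q * (G * R) * P).det ≠ 0)
    (w : Fin n → ℝ) : qtv w (uu A0 Q P b (G * R)) ≤ qtv (R *ᵥ w) (uu A0 Q P b G) := by
  have hRt : Rᵀ * R = 1 := mul_eq_one_comm.1 hR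
  have h1 := uu_mem hQ hA0 hb hA'
  have h2 := (facts hQ hA0 hb hA').2
  rw [← Matrix.mulVec_mulVec] at h2
  obtain ⟨c, hc⟩ := kernel (Q := Q) (R *ᵥ uu A0 Q P b (G * R)) (hRL _ h1) hA h2
  have hdot : ∀ x y : Fin n → ℝ, (R *ᵥ x) ⬝ᵥ (R *ᵥ y) = x ⬝ᵥ y := by
    intro x y
    rw [Matrix.dotProduct_mulVec, ← Matrix.mulVec_transpose, Matrix.mulVec_mulVec, hRt,
      Matrix.one_mulVec]
  set u' := uu A0 Q P b (G * R)
  set u := uu A0 Q P b G
  have h3 : w ⬝ᵥ u' = c * ((R *ᵥ w) ⬝ᵥ u) := by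
    rw [← hdot, hc, dotProduct_smul, smul_eq_mul]
  have h4 : u' ⬝ᵥ u' = c ^ 2 * (u ⬝ᵥ u) := by
    rw [← hdot, hc, dotProduct_smul, smul_dotProduct, smul_eq_mul, smul_eq_mul]
    ring
  unfold qtv
  rw [h3, h4, mul_pow]
  by_cases hc0 : c = 0
  · rw [hc0]
    simp only [ne_eq, OfNat.ofNat_ne_zero, not_false_eq_true, zero_pow, zero_mul, div_zero]
    exact div_nonneg (sq_nonneg _) (dot_self_nonneg _)
  · rw [mul_div_mul_left _ _ (pow_ne_zero 2 hc0)]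

/-- the reflection exchanging `w` and `w'` -/
def refl (d : Fin n → ℝ) : Mx n := 1 - (2 * (d ⬝ᵥ d)⁻¹) • vecMulVec d d

theorem refl_mulVec (d y : Fin n → ℝ) :
    refl d *ᵥ y = y - (2 * (d ⬝ᵥ d)⁻¹ * (d ⬝ᵥ y)) • d := by
  unfold refl
  rw [Matrix.sub_mulVec, Matrix.one_mulVec, Matrix.smul_mulVec, Matrix.vecMulVec_mulVec]
  ext k
  simp only [Pi.sub_apply, Pi.smul_apply, MulOpposite.smul_eq_mul_unop, MulOpposite.unop_op,
    smul_eq_mul]
  ring

theorem refl_orth (d : Fin n → ℝ) : refl d * (refl d)ᵀ = 1 := by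
  have h1 : (refl d)ᵀ = refl d := by
    unfold refl
    rw [transpose_sub, transpose_one, transpose_smul, vecMulVec_self_transpose]
  rw [h1]
  apply Matrix.ext_of_mulVec_single
  intro i
  rw [← Matrix.mulVec_mulVec, Matrix.one_mulVec, refl_mulVec, refl_mulVec]
  set y : Fin n → ℝ := Pi.single i 1
  by_cases hd : d ⬝ᵥ d = 0
  · rw [hd]; simp
  · rw [dotProduct_sub, dotProduct_smul, smul_eq_mul]
    ext k
    simp only [Pi.sub_apply, Pi.smul_apply, smul_eq_mul]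
    field_simp
    ring

theorem refl_swap {w w' : Fin n → ℝ} (h : w ⬝ᵥ w = w' ⬝ᵥ w') : refl (w - w') *ᵥ w = w' := by
  rw [refl_mulVec]
  by_cases hd : (w - w') ⬝ᵥ (w - w') = 0
  · have h1 := dot_self_eq_zero hd
    rw [h1]
    simp only [smul_zero, sub_zero]
    exact sub_eq_zero.1 h1
  · have h1 : (w - w') ⬝ᵥ (w - w') = 2 * ((w - w') ⬝ᵥ w) := by
      simp only [sub_dotProduct, dotProduct_sub]
      rw [← h, dotProduct_comm w w']
      ring
    have h2 : 2 * ((w - w') ⬝ᵥ (w - w'))⁻¹ * ((w - w') ⬝ᵥ w) = 1 := by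
      rw [mul_right_comm, ← h1, mul_inv_cancel₀ hd]
    rw [h2, one_smul]
    abel

end

end Pool.Agent.R563.MV
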