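import Pool.Agent.R563.MV.Core

set_option autoImplicit false

/-! # The bound for the direction of the unknown part -/

noncomputable section

namespace Pool.Agent.R563.MV

open MeasureTheory ProbabilityTheory Finset Matrix
open scoped RealInnerProductSpace

variable {n : ℕ} {Q P A0 : Mx n} {b : Fin n → ℝ}

theorem qtv_integrable {Ω : Type} [MeasurableSpace Ω] {μ : Measure Ω} [IsProbabilityMeasure μ]
    {u : Ω → Fin n → ℝ} (hu : Measurable u) (w : Fin n → ℝ) :
    Integrable (fun ω => qtv w (u ω)) μ := by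
  refine Integrable.mono' (integrable_const (w ⬝ᵥ w)) (measurable_qtv hu w).aestronglyMeasurable ?_
  refine Filter.Eventually.of_forall fun ω => ?_
  rw [Real.norm_of_nonneg (qtv_nonneg _ _)]
  exact qtv_le _ _

theorem sym_le (hQ : IsPr Q) (hA0 : Q * A0 = 0) (hb : Q *ᵥ b = 0)
    (hinv : ∀ᵐ G ∂(gM n), (A0 + Q * G * P).det ≠ 0) {w w' : Fin n → ℝ} (hw : w ∈ LL A0 P b)
    (hw' : w' ∈ LL A0 P b) (h : w ⬝ᵥ w = w' ⬝ᵥ w') :
    ∫ G, qtv w (uu A0 Q P b G) ∂(gM n) ≤ ∫ G, qtv w' (uu A0 Q P b G) ∂(gM n) := by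
  set R := refl (w - w') with hR
  have hRo : R * Rᵀ = 1 := refl_orth _
  have hcont : Measurable fun G : Mx n => G * R := by
    have : Continuous fun G : Mx n => G * R := by fun_prop
    exact this.measurable
  have hmp : MeasurePreserving (fun G : Mx n => G * R) (gM n) (gM n) := ⟨hcont, rot_right hRo⟩
  have h1 : ∫ G, qtv w (uu A0 Q P b G) ∂(gM n) = ∫ G, qtv w (uu A0 Q P b (G * R)) ∂(gM n) := by
    conv_lhs => rw [← rot_right hRo]
    rw [integral_map hcont.aemeasurable]
    exact (measurable_qtv (measurable_uu A0 Q P b) w).aestronglyMeasurable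
  have hinv' : ∀ᵐ G ∂(gM n), (A0 + Q * (G * R) * P).det ≠ 0 :=
    hmp.quasiMeasurePreserving.ae hinv
  rw [h1]
  apply integral_mono_ae
  · exact qtv_integrable ((measurable_uu A0 Q P b).comp hcont) w
  · exact qtv_integrable (measurable_uu A0 Q P b) w'
  · filter_upwards [hinv, hinv'] with G hG hG'
    have h2 := rot_le hQ hA0 hb hRo (R := R) ?_ hG hG' w
    · rw [hR, refl_swap h] at h2
      exact h2
    · intro y hy
      rw [hR, refl_mulVec]
      exact Submodule.sub_mem _ hy (Submodule.smul_mem _ _ (Submodule.sub_mem _ hw hw'))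

theorem finrank_LL (hQ : IsPr Q) (hA0 : Q * A0 = 0) (hb : Q *ᵥ b = 0) (hb0 : b ≠ 0) {r : ℕ}
    (hr : (1 - Q).rank ≤ r) {G : Mx n} (hA : (A0 + Q * G * P).det ≠ 0)
    (hu : uu A0 Q P b G ≠ 0) : n + 1 ≤ Module.finrank ℝ (LL A0 P b) + r := by
  set S := (Submodule.span ℝ {b}).comap A0.mulVecLin with hS
  set x := (A0 + Q * G * P)⁻¹ *ᵥ b with hx
  have hf := facts hQ hA0 hb hA
  rw [← hx] at hf
  -- `P` is injective on `S`
  have hinj : ∀ y ∈ S, P *ᵥ y = 0 → y = 0 := by
    intro y hy hPy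
    rw [hS, Submodule.mem_comap, Submodule.mem_span_singleton] at hy
    obtain ⟨c, hc⟩ := hy
    rw [Matrix.mulVecLin_apply] at hc
    have h1 : (A0 + Q * G * P) *ᵥ y = c • b := by
      rw [Matrix.add_mulVec, ← Matrix.mulVec_mulVec, hPy, Matrix.mulVec_zero, add_zero, hc]
    have h2 := solve_unique hA h1
    rw [Matrix.mulVec_smul, ← hx] at h2
    rw [h2, Matrix.mulVec_smul] at hPy
    have h3 : c = 0 := by
      rcases smul_eq_zero.1 hPy with h | h
      · exact h
      · exact absurd h hu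
    rw [h2, h3, zero_smul]
  have hLS : Module.finrank ℝ (LL A0 P b) = Module.finrank ℝ S := by
    unfold LL
    apply LinearEquiv.finrank_eq
    symm
    refine LinearEquiv.ofBijective (P.mulVecLin.submoduleMap S) ⟨?_, ?_⟩
    · rw [← LinearMap.ker_eq_bot, LinearMap.ker_eq_bot']
      rintro ⟨y, hy⟩ h
      have h4 := congrArg Subtype.val h
      simp only [LinearMap.submoduleMap_coe_apply, Matrix.mulVecLin_apply,
        ZeroMemClass.coe_zero] at h4
      exact Subtype.ext (hinj y hy h4)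
    · exact P.mulVecLin.submoduleMap_surjective S
  -- the kernel of `A0`
  have hrank : A0.rank ≤ r := by
    have h5 : A0 = (1 - Q) * A0 := by rw [sub_mul, one_mul, hA0, sub_zero]
    rw [h5]
    exact (Matrix.rank_mul_le_left _ _).trans hr
  have hker := A0.mulVecLin.finrank_range_add_finrank_ker
  rw [Module.finrank_fin_fun] at hker
  have hrank' : Module.finrank ℝ (LinearMap.range A0.mulVecLin) = A0.rank := rfl
  have hlt : LinearMap.ker A0.mulVecLin < S := by
    refine lt_of_le_of_ne ?_ ?_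
    · intro y hy
      rw [LinearMap.mem_ker] at hy
      rw [hS, Submodule.mem_comap, hy]
      exact Submodule.zero_mem _
    · intro heq
      have h6 : x ∈ S := by
        rw [hS, Submodule.mem_comap, Submodule.mem_span_singleton]
        exact ⟨1, by rw [one_smul, Matrix.mulVecLin_apply, hf.1]⟩
      rw [← heq, LinearMap.mem_ker, Matrix.mulVecLin_apply, hf.1] at h6
      exact hb0 h6
  have hlt' := Submodule.finrank_lt_finrank_of_lt hlt
  rw [hLS]
  omega

/-- the main estimate with all known parts fixed -/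
theorem core (hQ : IsPr Q) (hA0 : Q * A0 = 0) (hb : Q *ᵥ b = 0) (hb0 : b ≠ 0) {r : ℕ}
    (hr : (1 - Q).rank ≤ r) (hrn : r ≤ n) (hinv : ∀ᵐ G ∂(gM n), (A0 + Q * G * P).det ≠ 0)
    (w : Fin n → ℝ) :
    ∫ G, qtv w (uu A0 Q P b G) ∂(gM n) ≤ (w ⬝ᵥ w) / ((n : ℝ) + 1 - r) := by
  have hrn' : (r : ℝ) ≤ n := by exact_mod_cast hrn
  have hD : (0 : ℝ) < (n : ℝ) + 1 - r := by linarith
  have hrhs : 0 ≤ (w ⬝ᵥ w) / ((n : ℝ) + 1 - r) := div_nonneg (dot_self_nonneg _) hD.le
  by_cases hz : ∀ᵐ G ∂(gM n), uu A0 Q P b G = 0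
  · have h0 : ∫ G, qtv w (uu A0 Q P b G) ∂(gM n) = 0 := by
      rw [integral_congr_ae (g := fun _ => (0 : ℝ)), integral_zero]
      filter_upwards [hz] with G hG
      rw [hG]
      unfold qtv
      simp
    rw [h0]; exact hrhs
  · have hex : ∃ G, (A0 + Q * G * P).det ≠ 0 ∧ uu A0 Q P b G ≠ 0 := by
      by_contra hcon
      push Not at hcon
      apply hz
      filter_upwards [hinv] with G hG
      exact hcon G hG
    obtain ⟨G0, hG0, hu0⟩ := hex
    have hdim := finrank_LL hQ hA0 hb hb0 hr hG0 hu0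
    -- transfer to the Euclidean space
    let eL : (Fin n → ℝ) ≃ₗ[ℝ] EuclideanSpace ℝ (Fin n) := (WithLp.linearEquiv 2 ℝ (Fin n → ℝ)).symm
    set L : Submodule ℝ (EuclideanSpace ℝ (Fin n)) := (LL A0 P b).map eL.toLinearMap with hL
    have hLdim : Module.finrank ℝ L = Module.finrank ℝ (LL A0 P b) :=
      LinearEquiv.finrank_map_eq eL _
    have hmem : ∀ y : Fin n → ℝ, (WithLp.toLp 2 y : EuclideanSpace ℝ (Fin n)) ∈ L
        ↔ y ∈ LL A0 P b := by
      intro y
      rw [hL, Submodule.mem_map]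
      constructor
      · rintro ⟨z, hz, hzy⟩
        have : z = y := by
          have := congrArg WithLp.ofLp hzy
          exact this
        rw [← this]; exact hz
      · intro hy
        exact ⟨y, hy, rfl⟩
    have hsb := sphere_bound (μ := gM n) L (fun G => (WithLp.toLp 2 (uu A0 Q P b G) :
      EuclideanSpace ℝ (Fin n))) ?_ ?_ ?_ ?_ (WithLp.toLp 2 w)
    · simp only [qt_toLp, norm_toLp_sq, hLdim] at hsb
      refine hsb.trans ?_
      apply div_le_div_of_nonneg_left (dot_self_nonneg _) hD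
      have : ((n + 1 : ℕ) : ℝ) ≤ ((Module.finrank ℝ (LL A0 P b) + r : ℕ) : ℝ) := by
        exact_mod_cast hdim
      push_cast at this
      linarith
    · intro w'
      have h1 : (fun G => qt w' (WithLp.toLp 2 (uu A0 Q P b G) : EuclideanSpace ℝ (Fin n)))
          = fun G => qtv w'.ofLp (uu A0 Q P b G) := by
        funext G
        rw [← qt_toLp]
      rw [h1]
      exact (measurable_qtv (measurable_uu A0 Q P b) w'.ofLp).aestronglyMeasurable
    · filter_upwards [hinv] with G hG
      rw [hmem]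
      exact uu_mem hQ hA0 hb hG
    · intro v hv v' hv' hvv
      have e1 : v = WithLp.toLp 2 v.ofLp := rfl
      have e2 : v' = WithLp.toLp 2 v'.ofLp := rfl
      rw [e1, hmem] at hv
      rw [e2, hmem] at hv'
      have e3 : v.ofLp ⬝ᵥ v.ofLp = v'.ofLp ⬝ᵥ v'.ofLp := by
        rw [← norm_toLp_sq, ← norm_toLp_sq]
        exact congrArg (fun t => t ^ 2) hvv
      have h2 := sym_le hQ hA0 hb hinv hv hv' e3
      simp only [← qt_toLp] at h2
      exact h2
    · rw [hLdim]
      omega

end Pool.Agent.R563.MV
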