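import Pool.Agent.R563.MV.Resample

set_option autoImplicit false

/-! # The mean squared cosine of a query with the unknown part of the solution -/

noncomputable section

namespace Pool.Agent.R563.MV

open MeasureTheory ProbabilityTheory Finset Matrix

variable {n : ℕ}

/-- the squared cosine of the new part of the `i`-th query with the unknown part of the solution -/
def cc (qy : ℕ → Tr n → Fin n → ℝ) (b : Fin n → ℝ) (i : ℕ) (A : Mx n) : ℝ :=
  qtv (pj qy A i *ᵥ vq qy A i) (pj qy A i *ᵥ (A⁻¹ *ᵥ b))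
    / ((pj qy A i *ᵥ vq qy A i) ⬝ᵥ (pj qy A i *ᵥ vq qy A i))

theorem cc_nonneg (qy : ℕ → Tr n → Fin n → ℝ) (b : Fin n → ℝ) (i : ℕ) (A : Mx n) :
    0 ≤ cc qy b i A := div_nonneg (qtv_nonneg _ _) (dot_self_nonneg _)

theorem cc_le (qy : ℕ → Tr n → Fin n → ℝ) (b : Fin n → ℝ) (i : ℕ) (A : Mx n) :
    cc qy b i A ≤ 1 := div_le_one_of_le₀ (qtv_le _ _) (dot_self_nonneg _)

theorem measurable_cc {qy : ℕ → Tr n → Fin n → ℝ} (hq : ∀ i, Measurable (qy i))
    (b : Fin n → ℝ) (i : ℕ) : Measurable (cc qy b i) := by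
  have hmv : Continuous fun p : Mx n × (Fin n → ℝ) => p.1 *ᵥ p.2 :=
    continuous_fst.matrix_mulVec continuous_snd
  have hw : Measurable fun A : Mx n => pj qy A i *ᵥ vq qy A i :=
    hmv.measurable.comp ((measurable_pj hq i).prodMk (measurable_vq hq i))
  have hu : Measurable fun A : Mx n => pj qy A i *ᵥ (A⁻¹ *ᵥ b) :=
    hmv.measurable.comp ((measurable_pj hq i).prodMk (measurable_inv_mulVec measurable_id b))
  have hdot : Continuous fun p : (Fin n → ℝ) × (Fin n → ℝ) => p.1 ⬝ᵥ p.2 := by fun_prop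
  unfold cc qtv
  exact (((hdot.measurable.comp (hw.prodMk hu)).pow_const 2).div
    (hdot.measurable.comp (hu.prodMk hu))).div (hdot.measurable.comp (hw.prodMk hw))

theorem cc_integrable {qy : ℕ → Tr n → Fin n → ℝ} (hq : ∀ i, Measurable (qy i))
    (b : Fin n → ℝ) (i : ℕ) : Integrable (cc qy b i) (gM n) := by
  refine Integrable.mono' (integrable_const (1 : ℝ)) (measurable_cc hq b i).aestronglyMeasurable ?_
  refine Filter.Eventually.of_forall fun A => ?_
  rw [Real.norm_of_nonneg (cc_nonneg _ _ _ _)]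
  exact cc_le _ _ _ _

/-- the estimate for a fixed known part -/
theorem fixed_part (vs : List (Fin n → ℝ)) {P K : Mx n} (hPv : P = remL 1 vs)
    (hK : P * K * P = 0) {b : Fin n → ℝ} (hb0 : b ≠ 0) (hn : 2 * vs.length + 1 ≤ n)
    (hinv : ∀ᵐ G ∂(gM n), (K + P * G * P).det ≠ 0) (w : Fin n → ℝ) :
    ∫ G, qtv w (P *ᵥ ((K + P * G * P)⁻¹ *ᵥ b)) ∂(gM n)
      ≤ (w ⬝ᵥ w) / ((n : ℝ) - 2 * vs.length) := by
  have hP : IsPr P := by rw [hPv]; exact remL_pr IsPr.one vs
  set Q := remL P (b :: vs.map (fun v => K *ᵥ v)) with hQdef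
  have hQ : IsPr Q := remL_pr hP _
  have hQP : Q * P = Q := remL_mul hP _
  have hPQ : P * Q = Q := by
    have := congrArg Matrix.transpose hQP
    rwa [transpose_mul, hP.symm, hQ.symm] at this
  have hb : Q *ᵥ b = 0 := remL_kills hP _ b (by simp)
  have hQK1 : Q * K * (1 - P) = 0 := by
    rw [hPv]
    apply remL_kill vs (by rw [sub_self, mul_zero])
    intro v hv
    rw [← Matrix.mulVec_mulVec]
    exact remL_kills hP _ (K *ᵥ v) (by simp only [List.mem_cons, List.mem_map]; right; exact ⟨v, hv, rfl⟩)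
  have hQKP : Q * K * P = 0 := by
    rw [← hQP, mul_assoc Q P K, mul_assoc Q, hK, mul_zero]
  have hQK : Q * K = 0 := by
    have : Q * K * (1 - P) + Q * K * P = Q * K := by rw [mul_sub, mul_one]; abel
    rw [← this, hQK1, hQKP, add_zero]
  have hr : (1 - Q).rank ≤ 2 * vs.length + 1 := by
    have h1 := rank_remL P (b :: vs.map (fun v => K *ᵥ v))
    have h2 := rank_remL (1 : Mx n) vs
    rw [← hPv] at h2
    simp only [sub_self, Matrix.rank_zero, List.length_cons, List.length_map] at h1 h2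
    rw [← hQdef] at h1
    omega
  -- split the fresh block
  have hmixm : Measurable fun p : Mx n × Mx n => (p.1 - Q * p.1 * P) + Q * p.2 * P := by
    have : Continuous fun p : Mx n × Mx n => (p.1 - Q * p.1 * P) + Q * p.2 * P := by fun_prop
    exact this.measurable
  have halg : ∀ G1 G2 : Mx n, K + P * ((G1 - Q * G1 * P) + Q * G2 * P) * P
      = (K + P * G1 * P - Q * G1 * P) + Q * G2 * P := by
    intro G1 G2
    have h3 : ∀ G : Mx n, P * (Q * G * P) * P = Q * G * P := by
      intro G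
      rw [← mul_assoc, ← mul_assoc, hPQ, mul_assoc, hP.idem]
    rw [mul_add, add_mul, mul_sub, sub_mul, h3, h3]
    abel
  have hdetm : Measurable fun G : Mx n => (K + P * G * P).det := by
    have h4 : Continuous fun G : Mx n => K + P * G * P := by fun_prop
    exact (h4.matrix_det).measurable
  have hinv2 : ∀ᵐ p ∂((gM n).prod (gM n)),
      ((K + P * p.1 * P - Q * p.1 * P) + Q * p.2 * P).det ≠ 0 := by
    have hmp : MeasurePreserving (fun p : Mx n × Mx n => (p.1 - Q * p.1 * P) + Q * p.2 * P)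
        ((gM n).prod (gM n)) (gM n) := ⟨hmixm, mix_block hQ hP⟩
    have := hmp.quasiMeasurePreserving.ae hinv
    filter_upwards [this] with p hp
    rwa [halg] at hp
  have hinv3 := Measure.ae_ae_of_ae_prod hinv2
  have hφm : Measurable fun G : Mx n => qtv w (P *ᵥ ((K + P * G * P)⁻¹ *ᵥ b)) := by
    apply measurable_qtv
    have h4 : Continuous fun G : Mx n => K + P * G * P := by fun_prop
    have h5 : Continuous fun x : Fin n → ℝ => P *ᵥ x := by fun_prop
    exact h5.measurable.comp (measurable_inv_mulVec h4.measurable b)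
  have hint : Integrable (fun p : Mx n × Mx n =>
      qtv w (P *ᵥ ((K + P * ((p.1 - Q * p.1 * P) + Q * p.2 * P) * P)⁻¹ *ᵥ b)))
      ((gM n).prod (gM n)) := by
    refine Integrable.mono' (integrable_const (w ⬝ᵥ w)) (hφm.comp hmixm).aestronglyMeasurable ?_
    refine Filter.Eventually.of_forall fun p => ?_
    rw [Real.norm_of_nonneg (qtv_nonneg _ _)]
    exact qtv_le _ _
  calc ∫ G, qtv w (P *ᵥ ((K + P * G * P)⁻¹ *ᵥ b)) ∂(gM n)
      = ∫ p, qtv w (P *ᵥ ((K + P * ((p.1 - Q * p.1 * P) + Q * p.2 * P) * P)⁻¹ *ᵥ b))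
          ∂((gM n).prod (gM n)) := by
        conv_lhs => rw [← mix_block hQ hP]
        rw [integral_map hmixm.aemeasurable hφm.aestronglyMeasurable]
    _ = ∫ G1, ∫ G2, qtv w (P *ᵥ ((K + P * ((G1 - Q * G1 * P) + Q * G2 * P) * P)⁻¹ *ᵥ b))
          ∂(gM n) ∂(gM n) := integral_prod _ hint
    _ ≤ ∫ _G1, (w ⬝ᵥ w) / ((n : ℝ) - 2 * vs.length) ∂(gM n) := by
        apply integral_mono_ae hint.integral_prod_left (integrable_const _)
        filter_upwards [hinv3] with G1 hG1
        have hA0 : Q * (K + P * G1 * P - Q * G1 * P) = 0 := by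
          rw [mul_sub, mul_add, hQK, zero_add, ← mul_assoc, ← mul_assoc, hQP, ← mul_assoc,
            ← mul_assoc, hQ.idem, sub_self]
        have h6 := core (P := P) hQ hA0 hb hb0 hr (by omega) hG1 w
        have h7 : ((n : ℝ) + 1 - (2 * vs.length + 1 : ℕ)) = (n : ℝ) - 2 * vs.length := by
          push_cast; ring
        rw [h7] at h6
        refine le_trans (le_of_eq ?_) h6
        congr 1
        funext G2
        rw [halg]
        rfl
    _ = _ := by simp

theorem cc_mean {qy : ℕ → Tr n → Fin n → ℝ} (hq : ∀ i, Measurable (qy i)) {b : Fin n → ℝ}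
    (hb0 : b ≠ 0) {i : ℕ} (hn : 2 * i + 1 ≤ n) (hdet : ∀ᵐ A ∂(gM n), A.det ≠ 0) :
    ∫ A, cc qy b i A ∂(gM n) ≤ 1 / ((n : ℝ) - 2 * i) := by
  have hrs := measurable_rs hq i
  have hmp : MeasurePreserving (fun p : Mx n × Mx n => rs qy i p.1 p.2)
      ((gM n).prod (gM n)) (gM n) := ⟨hrs, resample hq i⟩
  have hinv := Measure.ae_ae_of_ae_prod (hmp.quasiMeasurePreserving.ae hdet)
  have hcm := measurable_cc hq b i
  have hint : Integrable (fun p : Mx n × Mx n => cc qy b i (rs qy i p.1 p.2))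
      ((gM n).prod (gM n)) := by
    refine Integrable.mono' (integrable_const (1 : ℝ)) (hcm.comp hrs).aestronglyMeasurable ?_
    refine Filter.Eventually.of_forall fun p => ?_
    rw [Real.norm_of_nonneg (cc_nonneg _ _ _ _)]
    exact cc_le _ _ _ _
  have hD : (0 : ℝ) < (n : ℝ) - 2 * i := by
    have : ((2 * i + 1 : ℕ) : ℝ) ≤ n := by exact_mod_cast hn
    push_cast at this
    linarith
  calc ∫ A, cc qy b i A ∂(gM n)
      = ∫ p, cc qy b i (rs qy i p.1 p.2) ∂((gM n).prod (gM n)) := by
        conv_lhs => rw [← resample hq i]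
        rw [integral_map hrs.aemeasurable hcm.aestronglyMeasurable]
    _ = ∫ A, ∫ G, cc qy b i (rs qy i A G) ∂(gM n) ∂(gM n) := integral_prod _ hint
    _ ≤ ∫ _A, 1 / ((n : ℝ) - 2 * i) ∂(gM n) := by
        apply integral_mono_ae hint.integral_prod_left (integrable_const _)
        filter_upwards [hinv] with A hA
        set P := pj qy A i with hP
        set w := P *ᵥ vq qy A i with hw
        have hPp : IsPr P := pj_pr qy A i
        have hlen : (qs qy A i).length = i := by simp [qs]
        have hK : P * (A - P * A * P) * P = 0 := by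
          rw [mul_sub, sub_mul, ← mul_assoc, ← mul_assoc, hPp.idem, mul_assoc (P * A) P P,
            hPp.idem, sub_self]
        have h1 : ∀ G : Mx n, cc qy b i (rs qy i A G)
            = (w ⬝ᵥ w)⁻¹ * qtv w (P *ᵥ (((A - P * A * P) + P * G * P)⁻¹ *ᵥ b)) := by
          intro G
          unfold cc
          rw [rs_pj qy i A G (Nat.le_succ i), rs_vq qy i A G le_rfl, ← hP, ← hw]
          unfold rs
          rw [← hP, div_eq_inv_mul]
        simp only [h1]
        rw [integral_const_mul]
        have h2 := fixed_part (qs qy A i) (P := P) (K := A - P * A * P) rfl hK hb0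
          (by rw [hlen]; exact hn) hA w
        rw [hlen] at h2
        have h3 := dot_self_nonneg w
        by_cases hw0 : w ⬝ᵥ w = 0
        · rw [hw0]
          simp only [_root_.inv_zero, zero_mul]
          positivity
        · calc (w ⬝ᵥ w)⁻¹ * ∫ G, qtv w (P *ᵥ (((A - P * A * P) + P * G * P)⁻¹ *ᵥ b)) ∂(gM n)
              ≤ (w ⬝ᵥ w)⁻¹ * ((w ⬝ᵥ w) / ((n : ℝ) - 2 * i)) :=
                mul_le_mul_of_nonneg_left h2 (inv_nonneg.2 h3)
            _ = 1 / ((n : ℝ) - 2 * i) := by
                field_simp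
    _ = _ := by simp

end Pool.Agent.R563.MV
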