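import Pool.Agent.R563.MV.Base

set_option autoImplicit false

/-! # Gaussian matrices are invertible, and their inverses are not too large -/

noncomputable section

namespace Pool.Agent.R563.MV

open MeasureTheory ProbabilityTheory Finset Matrix
open scoped NNReal ENNReal

variable {n : ℕ}

theorem ip_self_nonneg (C : Mx n) : 0 ≤ ip C C := by
  unfold ip
  exact Finset.sum_nonneg fun i _ => Finset.sum_nonneg fun j _ => mul_self_nonneg _

theorem measurable_ip (C : Mx n) : Measurable fun G : Mx n => ip G C := by
  unfold ip
  refine Finset.measurable_sum _ fun i _ => Finset.measurable_sum _ fun j _ => ?_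
  exact (measurable_entry i j).mul_const _

/-- linear functionals of a Gaussian matrix are Gaussian -/
theorem gM_ip (C : Mx n) : (gM n).map (fun G => ip G C) = gaussianReal 0 (ip C C).toNNReal := by
  have hm := measurable_ip C
  have : IsProbabilityMeasure ((gM n).map (fun G => ip G C)) :=
    Measure.isProbabilityMeasure_map hm.aemeasurable
  apply Measure.ext_of_charFun
  funext t
  rw [charFun_gaussianReal, charFun_apply_real, integral_map hm.aemeasurable
    (by fun_prop : Measurable fun x : ℝ => Complex.exp (t * x * Complex.I)).aestronglyMeasurable]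
  have h1 : ∀ G : Mx n, Complex.exp (t * (ip G C : ℝ) * Complex.I)
      = Complex.exp ((ip G (t • C) : ℝ) * Complex.I) := by
    intro G
    congr 2
    unfold ip
    push_cast
    simp only [Matrix.smul_apply, smul_eq_mul]
    rw [Finset.mul_sum]
    refine Finset.sum_congr rfl fun i _ => ?_
    rw [Finset.mul_sum]
    refine Finset.sum_congr rfl fun j _ => ?_
    push_cast
    ring
  simp only [h1]
  rw [gM_char]
  congr 1
  have h2 : ip (t • C) (t • C) = t ^ 2 * ip C C := by
    unfold ip
    simp only [Matrix.smul_apply, smul_eq_mul]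
    rw [Finset.mul_sum]
    refine Finset.sum_congr rfl fun i _ => ?_
    rw [Finset.mul_sum]
    exact Finset.sum_congr rfl fun j _ => by ring
  rw [h2, Real.coe_toNNReal _ (ip_self_nonneg C)]
  push_cast
  simp
  ring

/-- anti-concentration for a real Gaussian variable -/
theorem gauss_small {v : ℝ≥0} (hv : v ≠ 0) {δ : ℝ} (hδ : 0 ≤ δ) :
    gaussianReal 0 v {x | x ^ 2 < δ ^ 2 * v} ≤ ENNReal.ofReal δ := by
  have hv0 : (0 : ℝ) < v := by exact_mod_cast pos_iff_ne_zero.2 hv
  rw [gaussianReal_apply 0 hv]
  have hpdf : ∀ x : ℝ, gaussianPDF 0 v x ≤ ENNReal.ofReal ((√(2 * Real.pi * v))⁻¹) := by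
    intro x
    unfold gaussianPDF gaussianPDFReal
    apply ENNReal.ofReal_le_ofReal
    have h1 : Real.exp (-(x - 0) ^ 2 / (2 * v)) ≤ 1 := by
      apply Real.exp_le_one_iff.2
      apply div_nonpos_of_nonpos_of_nonneg
      · have := sq_nonneg (x - 0)
        linarith
      · positivity
    calc (√(2 * Real.pi * v))⁻¹ * Real.exp (-(x - 0) ^ 2 / (2 * v))
        ≤ (√(2 * Real.pi * v))⁻¹ * 1 := mul_le_mul_of_nonneg_left h1 (by positivity)
      _ = _ := mul_one _
  have hsub : {x : ℝ | x ^ 2 < δ ^ 2 * v} ⊆ Set.Icc (-(δ * √v)) (δ * √v) := by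
    intro x hx
    rw [Set.mem_ofPred_eq] at hx
    have h2 : δ ^ 2 * v = (δ * √v) ^ 2 := by
      rw [mul_pow, Real.sq_sqrt hv0.le]
    rw [h2] at hx
    have h3 := abs_lt_of_sq_lt_sq hx (by positivity)
    rw [abs_lt] at h3
    exact ⟨h3.1.le, h3.2.le⟩
  calc ∫⁻ x in {x : ℝ | x ^ 2 < δ ^ 2 * v}, gaussianPDF 0 v x
      ≤ ∫⁻ _x in {x : ℝ | x ^ 2 < δ ^ 2 * v}, ENNReal.ofReal ((√(2 * Real.pi * v))⁻¹) :=
        lintegral_mono fun x => hpdf x
    _ = ENNReal.ofReal ((√(2 * Real.pi * v))⁻¹) * volume {x : ℝ | x ^ 2 < δ ^ 2 * v} := by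
        rw [lintegral_const, Measure.restrict_apply MeasurableSet.univ, Set.univ_inter]
    _ ≤ ENNReal.ofReal ((√(2 * Real.pi * v))⁻¹) * volume (Set.Icc (-(δ * √v)) (δ * √v)) := by
        gcongr
    _ = ENNReal.ofReal ((√(2 * Real.pi * v))⁻¹ * (2 * (δ * √v))) := by
        rw [Real.volume_Icc, ← ENNReal.ofReal_mul (by positivity)]
        congr 1
        ring
    _ ≤ ENNReal.ofReal δ := by
        apply ENNReal.ofReal_le_ofReal
        have h4 : √(2 * Real.pi * v) = √(2 * Real.pi) * √v := Real.sqrt_mul (by positivity) _
        have h5 : (2 : ℝ) ≤ √(2 * Real.pi) := by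
          apply Real.le_sqrt_of_sq_le
          have := Real.pi_gt_three
          nlinarith
        have hv' : 0 < √(v : ℝ) := Real.sqrt_pos.2 hv0
        rw [h4]
        have h6 : (√(2 * Real.pi) * √(v : ℝ))⁻¹ * (2 * (δ * √v)) = 2 * δ / √(2 * Real.pi) := by
          field_simp
        rw [h6, div_le_iff₀ (by linarith)]
        nlinarith

/-! ### Invertibility -/

theorem det_ne_zero (hn : 0 < n) : ∀ᵐ A ∂(gM n), A.det ≠ 0 := by
  have hn0 : (0 : ℝ) < n := by exact_mod_cast hn
  set T : Mx n → Mx n := fun G => (G.trace / n) • (1 : Mx n) with hT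
  have htr : ∀ G : Mx n, ip G 1 = G.trace := by
    intro G
    rw [ip_eq_trace, transpose_one, mul_one]
  have hip : ∀ (c : ℝ) (G H : Mx n), ip (c • G) H = c * ip G H := by
    intro c G H
    unfold ip
    rw [Finset.mul_sum]
    refine Finset.sum_congr rfl fun i _ => ?_
    rw [Finset.mul_sum]
    refine Finset.sum_congr rfl fun j _ => ?_
    rw [Matrix.smul_apply, smul_eq_mul]; ring
  have hself : ∀ G H, ip (T G) H = ip G (T H) := by
    intro G H
    simp only [hT]
    rw [hip, ip_comm G, hip, ip_comm 1 H, ip_comm 1 G, htr, htr]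
    ring
  have hTm : Measurable T := by
    have h1 : Continuous fun G : Mx n => (G.trace / n) • (1 : Mx n) :=
      ((Continuous.matrix_trace continuous_id).div_const _).smul continuous_const
    exact h1.measurable
  have hidem : ∀ G, T (T G) = T G := by
    intro G
    simp only [hT, trace_smul, trace_one, Fintype.card_fin, smul_eq_mul]
    congr 1
    field_simp
  have hmix := mix (n := n) (T1 := fun G => G - T G) (T2 := T) (S1 := fun G => G - T G) (S2 := T)
    (by
      apply measurable_mx_of
      intro i j
      exact (measurable_entry i j).sub ((measurable_entry i j).comp hTm)) hTm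
    (by
      intro G H
      rw [ip_sub_left, hself, ip_comm G (H - T H), ip_sub_left, ip_comm H G, ip_comm (T H) G])
    hself
    (by
      intro H
      have e1 : ip (T H) (T H) = ip H (T H) := by rw [hself, hidem]
      rw [ip_sub_left, ip_comm H (H - T H), ip_comm (T H) (H - T H), ip_sub_left, ip_sub_left, e1,
        ip_comm (T H) H]
      ring)
  have hmm : Measurable fun p : Mx n × Mx n => p.1 - T p.1 + T p.2 := by
    apply measurable_mx_of
    intro i j
    exact (((measurable_entry i j).comp measurable_fst).sub ((measurable_entry i j).comp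
      (hTm.comp measurable_fst))).add ((measurable_entry i j).comp (hTm.comp measurable_snd))
  have hdetm : MeasurableSet {A : Mx n | A.det ≠ 0} := by
    have : Measurable fun A : Mx n => A.det := (Continuous.matrix_det continuous_id).measurable
    exact (measurableSet_eq_fun this measurable_const).compl
  have hprod : ∀ᵐ p ∂((gM n).prod (gM n)), (p.1 - T p.1 + T p.2).det ≠ 0 := by
    have hms : MeasurableSet {p : Mx n × Mx n | (p.1 - T p.1 + T p.2).det ≠ 0} :=
      hmm hdetm
    rw [Measure.ae_prod_iff_ae_ae hms]
    refine Filter.Eventually.of_forall fun A => ?_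
    -- finitely many bad values of the trace
    set B := A - T A with hB
    have hroots : ∀ G : Mx n, (B + T G).det = 0 →
        G.trace / n ∈ ((-B).charpoly.roots.toFinset : Set ℝ) := by
      intro G hG
      rw [Finset.mem_coe, Multiset.mem_toFinset, Polynomial.mem_roots
        (Matrix.charpoly_monic _).ne_zero, Polynomial.IsRoot, Matrix.eval_charpoly]
      rw [← hG]
      congr 1
      simp only [hT]
      rw [sub_neg_eq_add, add_comm, Matrix.scalar_apply]
      congr 1
      ext i j
      by_cases hij : i = j
      · subst hij; simp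
      · simp [hij]
    have hlaw := gM_ip (1 : Mx n)
    have hv : (ip (1 : Mx n) 1).toNNReal ≠ 0 := by
      apply (Real.toNNReal_pos.2 _).ne'
      rw [htr, trace_one, Fintype.card_fin]
      exact hn0
    have hfin : (gM n) {G : Mx n | ip G 1 / n ∈ ((-B).charpoly.roots.toFinset : Set ℝ)} = 0 := by
      have h2 : {G : Mx n | ip G 1 / n ∈ ((-B).charpoly.roots.toFinset : Set ℝ)}
          = (fun G : Mx n => ip G 1) ⁻¹' {x : ℝ | x / n ∈ ((-B).charpoly.roots.toFinset : Set ℝ)} :=
        rfl
      have hfs : Set.Finite {x : ℝ | x / n ∈ ((-B).charpoly.roots.toFinset : Set ℝ)} := by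
        apply Set.Finite.subset (((-B).charpoly.roots.toFinset.finite_toSet).image
          (fun y : ℝ => y * n))
        intro x hx
        exact ⟨x / n, hx, by field_simp⟩
      rw [h2, ← Measure.map_apply (measurable_ip 1) hfs.measurableSet, hlaw]
      exact gaussianReal_absolutelyContinuous 0 hv (hfs.measure_zero volume)
    rw [ae_iff]
    apply measure_mono_null _ hfin
    intro G hG
    rw [Set.mem_ofPred_eq, not_not] at hG
    rw [Set.mem_ofPred_eq, htr]
    exact hroots G hG
  rw [← hmix, ae_map_iff hmm.aemeasurable hdetm]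
  exact hprod

/-! ### The size of the inverse -/

/-- squared norm of the `i`-th column of the adjugate -/
def adjc (A : Mx n) (i : Fin n) : ℝ := ∑ j, (A.adjugate j i) ^ 2

theorem small_det (i : Fin n) {δ : ℝ} (hδ : 0 ≤ δ) :
    (gM n) {A : Mx n | A.det ^ 2 < δ ^ 2 * adjc A i} ≤ ENNReal.ofReal δ := by
  set T : Mx n → Mx n := fun G => Matrix.of fun k j => if k = i then G k j else 0 with hT
  set T' : Mx n → Mx n := fun G => Matrix.of fun k j => if k = i then 0 else G k j with hT'
  have hTm : Measurable T := by
    apply measurable_mx_of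
    intro k j
    simp only [hT, Matrix.of_apply]
    by_cases hk : k = i
    · simp only [hk, if_true]; exact measurable_entry i j
    · simp only [hk, if_false]; exact measurable_const
  have hTm' : Measurable T' := by
    apply measurable_mx_of
    intro k j
    simp only [hT', Matrix.of_apply]
    by_cases hk : k = i
    · simp only [hk, if_true]; exact measurable_const
    · simp only [hk, if_false]; exact measurable_entry k j
  have hmix := mix (n := n) (T1 := T') (T2 := T) (S1 := T') (S2 := T) hTm' hTm
    (by
      intro G H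
      unfold ip
      refine Finset.sum_congr rfl fun k _ => Finset.sum_congr rfl fun j _ => ?_
      simp only [hT', Matrix.of_apply]
      split_ifs <;> simp)
    (by
      intro G H
      unfold ip
      refine Finset.sum_congr rfl fun k _ => Finset.sum_congr rfl fun j _ => ?_
      simp only [hT, Matrix.of_apply]
      split_ifs <;> simp)
    (by
      intro H
      unfold ip
      rw [← Finset.sum_add_distrib]
      refine Finset.sum_congr rfl fun k _ => ?_
      rw [← Finset.sum_add_distrib]
      refine Finset.sum_congr rfl fun j _ => ?_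
      simp only [hT, hT', Matrix.of_apply]
      split_ifs <;> simp)
  have hmm : Measurable fun p : Mx n × Mx n => T' p.1 + T p.2 := by
    apply measurable_mx_of
    intro k j
    exact ((measurable_entry k j).comp (hTm'.comp measurable_fst)).add
      ((measurable_entry k j).comp (hTm.comp measurable_snd))
  have hadj : Continuous fun A : Mx n => adjc A i := by
    unfold adjc
    apply continuous_finsetSum
    intro j _
    have h1 : Continuous fun A : Mx n => A.adjugate := Continuous.matrix_adjugate continuous_id
    exact (h1.matrix_elem j i).pow 2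
  have hset : MeasurableSet {A : Mx n | A.det ^ 2 < δ ^ 2 * adjc A i} := by
    have h1 : Measurable fun A : Mx n => A.det ^ 2 :=
      ((Continuous.matrix_det continuous_id).pow 2).measurable
    have h2 : Measurable fun A : Mx n => δ ^ 2 * adjc A i :=
      (hadj.const_mul _).measurable
    exact measurableSet_lt h1 h2
  conv_lhs => rw [← hmix]
  rw [Measure.map_apply hmm hset, Measure.prod_apply (hmm hset)]
  have hpt : ∀ A : Mx n, (gM n) (Prod.mk A ⁻¹' ((fun p : Mx n × Mx n => T' p.1 + T p.2) ⁻¹'
      {A : Mx n | A.det ^ 2 < δ ^ 2 * adjc A i})) ≤ ENNReal.ofReal δ := by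
    intro A
    set C : Mx n := Matrix.of fun k j => if k = i then A.adjugate j i else 0 with hC
    have hadjA : ∀ (G : Mx n) (j : Fin n), (T' A + T G).adjugate j i = A.adjugate j i := by
      intro G j
      rw [Matrix.adjugate_apply, Matrix.adjugate_apply]
      congr 1
      ext k l
      by_cases hk : k = i
      · subst hk; simp
      · rw [Matrix.updateRow_ne hk, Matrix.updateRow_ne hk]
        simp [hT, hT', hk]
    have hCC : ip C C = adjc A i := by
      unfold ip adjc
      rw [Finset.sum_eq_single i]
      · refine Finset.sum_congr rfl fun j _ => ?_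
        simp [hC, pow_two]
      · intro k _ hk
        refine Finset.sum_eq_zero fun j _ => ?_
        simp [hC, hk]
      · intro h; exact absurd (Finset.mem_univ _) h
    have hipC : ∀ G : Mx n, ip G C = ∑ j, G i j * A.adjugate j i := by
      intro G
      unfold ip
      rw [Finset.sum_eq_single i]
      · refine Finset.sum_congr rfl fun j _ => ?_
        simp [hC]
      · intro k _ hk
        refine Finset.sum_eq_zero fun j _ => ?_
        simp [hC, hk]
      · intro h; exact absurd (Finset.mem_univ _) h
    have hdet : ∀ G : Mx n, (T' A + T G).det = ip G C := by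
      intro G
      rw [Matrix.det_eq_sum_mul_adjugate_row _ i, hipC]
      refine Finset.sum_congr rfl fun j _ => ?_
      rw [hadjA]
      simp [hT, hT']
    have hadjc : ∀ G : Mx n, adjc (T' A + T G) i = ip C C := by
      intro G
      rw [hCC]
      unfold adjc
      exact Finset.sum_congr rfl fun j _ => by rw [hadjA]
    have heq : Prod.mk A ⁻¹' ((fun p : Mx n × Mx n => T' p.1 + T p.2) ⁻¹'
        {A : Mx n | A.det ^ 2 < δ ^ 2 * adjc A i})
        = (fun G : Mx n => ip G C) ⁻¹' {x : ℝ | x ^ 2 < δ ^ 2 * ip C C} := by
      ext G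
      simp only [Set.mem_preimage, Set.mem_ofPred_eq, hdet, hadjc]
    rw [heq]
    by_cases h0 : ip C C = 0
    · have : {x : ℝ | x ^ 2 < δ ^ 2 * ip C C} = ∅ := by
        ext x
        rw [h0]
        simp only [mul_zero, Set.mem_ofPred_eq, Set.mem_empty_iff_false, iff_false, not_lt]
        positivity
      rw [this]
      simp
    · have hms : MeasurableSet {x : ℝ | x ^ 2 < δ ^ 2 * ip C C} :=
        measurableSet_lt (by fun_prop) measurable_const
      rw [← Measure.map_apply (measurable_ip C) hms, gM_ip]
      have hv : (ip C C).toNNReal ≠ 0 :=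
        (Real.toNNReal_pos.2 (lt_of_le_of_ne (ip_self_nonneg C) (Ne.symm h0))).ne'
      have h7 := gauss_small hv hδ
      rw [Real.coe_toNNReal _ (ip_self_nonneg C)] at h7
      exact h7
  calc ∫⁻ A, (gM n) (Prod.mk A ⁻¹' ((fun p : Mx n × Mx n => T' p.1 + T p.2) ⁻¹'
        {A : Mx n | A.det ^ 2 < δ ^ 2 * adjc A i})) ∂(gM n)
      ≤ ∫⁻ _A, ENNReal.ofReal δ ∂(gM n) := lintegral_mono fun A => hpt A
    _ = ENNReal.ofReal δ := by rw [lintegral_const, measure_univ, mul_one]

theorem entry_sq (i j : Fin n) : ∫ A : Mx n, (A i j) ^ 2 ∂(gM n) = 1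
    ∧ Integrable (fun A : Mx n => (A i j) ^ 2) (gM n) := by
  set C : Mx n := Matrix.single i j 1 with hC
  have h1 : ∀ A : Mx n, ip A C = A i j := by
    intro A
    unfold ip
    rw [Finset.sum_eq_single i, Finset.sum_eq_single j]
    · simp [hC]
    · intro l _ hl
      simp [hC, hl.symm]
    · intro h; exact absurd (Finset.mem_univ _) h
    · intro k _ hk
      refine Finset.sum_eq_zero fun l _ => ?_
      simp [hC, hk.symm]
    · intro h; exact absurd (Finset.mem_univ _) h
  have h2 : ip C C = 1 := by rw [h1]; simp [hC]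
  have hlaw := gM_ip C
  have h3 : (ip C C).toNNReal = 1 := by
    rw [h2]; exact Real.toNNReal_one
  rw [h3] at hlaw
  simp only [h1] at hlaw
  have hm := measurable_entry i j
  have hmem : Integrable (fun x : ℝ => x ^ 2) (gaussianReal 0 1) := by
    have := (memLp_id_gaussianReal (μ := 0) (v := 1) 2)
    have h4 := (memLp_two_iff_integrable_sq measurable_id.aestronglyMeasurable).1 this
    exact h4
  constructor
  · have h5 := integral_map (μ := gM n) hm.aemeasurable (f := fun x : ℝ => x ^ 2)
      (by fun_prop : Measurable fun x : ℝ => x ^ 2).aestronglyMeasurable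
    rw [← h5, hlaw]
    have h := variance_id_gaussianReal (μ := 0) (v := 1)
    rw [variance_eq_integral measurable_id.aemeasurable] at h
    simp only [id_eq, integral_id_gaussianReal, sub_zero, NNReal.coe_one] at h
    exact h
  · have h5 := integrable_map_measure (μ := gM n) (f := fun A : Mx n => A i j)
      (g := fun x : ℝ => x ^ 2)
      (by fun_prop : Measurable fun x : ℝ => x ^ 2).aestronglyMeasurable hm.aemeasurable
    rw [hlaw] at h5
    exact h5.1 hmem

/-- the Frobenius norm is rarely large -/
theorem large_norm {t : ℝ} (ht : 0 < t) :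
    (gM n) {A : Mx n | t < ip A A} ≤ ENNReal.ofReal ((n : ℝ) ^ 2 / t) := by
  have h1 : ∀ A : Mx n, ip A A = ∑ i, ∑ j, (A i j) ^ 2 := by
    intro A
    unfold ip
    exact Finset.sum_congr rfl fun i _ => Finset.sum_congr rfl fun j _ => by ring
  have hint : Integrable (fun A : Mx n => ip A A) (gM n) := by
    simp only [h1]
    exact integrable_finsetSum _ fun i _ => integrable_finsetSum _ fun j _ => (entry_sq i j).2
  have hval : ∫ A : Mx n, ip A A ∂(gM n) = (n : ℝ) ^ 2 := by
    simp only [h1]
    rw [integral_finsetSum _ fun i _ => integrable_finsetSum _ fun j _ => (entry_sq i j).2]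
    have : ∀ i : Fin n, ∫ A : Mx n, ∑ j, (A i j) ^ 2 ∂(gM n) = n := by
      intro i
      rw [integral_finsetSum _ fun j _ => (entry_sq i j).2,
        Finset.sum_congr rfl fun j _ => (entry_sq i j).1]
      simp
    simp only [this]
    simp [pow_two]
  have hmarkov := mul_meas_ge_le_integral_of_nonneg
    (Filter.Eventually.of_forall fun A : Mx n => ip_self_nonneg A) hint t
  rw [hval] at hmarkov
  have hle : (gM n) {A : Mx n | t < ip A A} ≤ (gM n) {A : Mx n | t ≤ ip A A} :=
    measure_mono (by intro A hA; exact (le_of_lt hA : t ≤ ip A A))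
  refine hle.trans ?_
  have h2 : (gM n).real {A : Mx n | t ≤ ip A A} ≤ (n : ℝ) ^ 2 / t := by
    rw [le_div_iff₀ ht, mul_comm]
    exact hmarkov
  rw [← ofReal_measureReal]
  exact ENNReal.ofReal_le_ofReal h2

end Pool.Agent.R563.MV
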