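import Pool.Agent.R563.MV.Cos
import Pool.Agent.R563.MV.Sing

set_option autoImplicit false

/-! # The lower bound for deterministic algorithms -/

noncomputable section

namespace Pool.Agent.R563.MV

open MeasureTheory ProbabilityTheory Finset Matrix
open scoped NNReal ENNReal

variable {n : ℕ}

/-! ### Telescoping -/

theorem step_norm {P : Mx n} (hP : IsPr P) (v x : Fin n → ℝ) :
    (stepP P v *ᵥ x) ⬝ᵥ (stepP P v *ᵥ x)
      = (P *ᵥ x) ⬝ᵥ (P *ᵥ x)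
        - ((P *ᵥ v) ⬝ᵥ (P *ᵥ v))⁻¹ * ((P *ᵥ v) ⬝ᵥ (P *ᵥ x)) ^ 2 := by
  have h1 : (stepP P v *ᵥ x) ⬝ᵥ (stepP P v *ᵥ x) = x ⬝ᵥ (stepP P v *ᵥ x) := by
    rw [(hP.step v).dot, (hP.step v).mulVec_idem]
  have h2 : (P *ᵥ x) ⬝ᵥ (P *ᵥ x) = x ⬝ᵥ (P *ᵥ x) := by
    rw [hP.dot, hP.mulVec_idem]
  have h3 : (P *ᵥ v) ⬝ᵥ (P *ᵥ x) = (P *ᵥ v) ⬝ᵥ x := by
    rw [← hP.dot, hP.mulVec_idem]
  rw [h1, h2, h3]
  unfold stepP
  rw [Matrix.sub_mulVec, Matrix.smul_mulVec, Matrix.vecMulVec_mulVec, dotProduct_sub,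
    dotProduct_smul, smul_eq_mul]
  congr 2
  rw [dotProduct_comm x]
  have h4 : (MulOpposite.op ((P *ᵥ v) ⬝ᵥ x)) • (P *ᵥ v) = ((P *ᵥ v) ⬝ᵥ x) • (P *ᵥ v) := by
    ext k; simp [mul_comm]
  rw [h4, smul_dotProduct, smul_eq_mul, pow_two]

theorem step_cc (qy : ℕ → Tr n → Fin n → ℝ) (b : Fin n → ℝ) (A : Mx n) (i : ℕ) :
    (pj qy A (i + 1) *ᵥ (A⁻¹ *ᵥ b)) ⬝ᵥ (pj qy A (i + 1) *ᵥ (A⁻¹ *ᵥ b))
      = (pj qy A i *ᵥ (A⁻¹ *ᵥ b)) ⬝ᵥ (pj qy A i *ᵥ (A⁻¹ *ᵥ b)) * (1 - cc qy b i A) := by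
  rw [pj_succ, step_norm (pj_pr qy A i)]
  unfold cc qtv
  set P := pj qy A i
  set w := P *ᵥ vq qy A i
  set u := P *ᵥ (A⁻¹ *ᵥ b)
  by_cases hu : u ⬝ᵥ u = 0
  · rw [dot_self_eq_zero hu]
    simp
  · rw [mul_sub, mul_one]
    congr 1
    field_simp

theorem tele (qy : ℕ → Tr n → Fin n → ℝ) (b : Fin n → ℝ) (A : Mx n) (k : ℕ) :
    ((A⁻¹ *ᵥ b) ⬝ᵥ (A⁻¹ *ᵥ b)) * (1 - ∑ i ∈ range k, cc qy b i A)
      ≤ (pj qy A k *ᵥ (A⁻¹ *ᵥ b)) ⬝ᵥ (pj qy A k *ᵥ (A⁻¹ *ᵥ b)) ∧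
    (pj qy A k *ᵥ (A⁻¹ *ᵥ b)) ⬝ᵥ (pj qy A k *ᵥ (A⁻¹ *ᵥ b))
      ≤ (A⁻¹ *ᵥ b) ⬝ᵥ (A⁻¹ *ᵥ b) := by
  induction k with
  | zero =>
    have : pj qy A 0 = 1 := rfl
    rw [this, Matrix.one_mulVec]
    simp
  | succ k ih =>
    rw [step_cc, Finset.sum_range_succ]
    have h1 := cc_nonneg qy b k A
    have h2 := cc_le qy b k A
    have h3 := dot_self_nonneg (pj qy A k *ᵥ (A⁻¹ *ᵥ b))
    constructor
    · nlinarith [ih.1, ih.2]
    · nlinarith [ih.1, ih.2]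

/-! ### Norm inequalities -/

theorem mulVec_norm_le (A : Mx n) (x : Fin n → ℝ) :
    (A *ᵥ x) ⬝ᵥ (A *ᵥ x) ≤ ip A A * (x ⬝ᵥ x) := by
  have h1 : (A *ᵥ x) ⬝ᵥ (A *ᵥ x) = ∑ i, (∑ j, A i j * x j) ^ 2 := by
    unfold dotProduct Matrix.mulVec dotProduct
    exact Finset.sum_congr rfl fun i _ => by rw [pow_two]
  rw [h1]
  unfold ip
  rw [Finset.sum_mul]
  refine Finset.sum_le_sum fun i _ => ?_
  have h2 := Finset.sum_mul_sq_le_sq_mul_sq univ (fun j => A i j) x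
  refine h2.trans (le_of_eq ?_)
  unfold dotProduct
  congr 1
  · exact Finset.sum_congr rfl fun j _ => by rw [pow_two]
  · exact Finset.sum_congr rfl fun j _ => by rw [pow_two]

theorem pr_norm_le {P : Mx n} (hP : IsPr P) (x : Fin n → ℝ) :
    (P *ᵥ x) ⬝ᵥ (P *ᵥ x) ≤ x ⬝ᵥ x := by
  have h1 : (P *ᵥ x) ⬝ᵥ (P *ᵥ x) = x ⬝ᵥ (P *ᵥ x) := by rw [hP.dot, hP.mulVec_idem]
  have h2 := dot_self_nonneg (x - P *ᵥ x)
  rw [sub_dotProduct, dotProduct_sub, dotProduct_sub, dotProduct_comm (P *ᵥ x) x] at h2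
  linarith

theorem inv_norm {A : Mx n} (hA : A.det ≠ 0) {δ : ℝ} (hδ : 0 < δ)
    (h : ∀ i, δ ^ 2 * adjc A i ≤ A.det ^ 2) : ip A⁻¹ A⁻¹ ≤ n / δ ^ 2 := by
  have h1 : ip A⁻¹ A⁻¹ = ∑ i, adjc A i / A.det ^ 2 := by
    unfold ip adjc
    rw [Finset.sum_comm]
    refine Finset.sum_congr rfl fun i _ => ?_
    rw [Finset.sum_div]
    refine Finset.sum_congr rfl fun j _ => ?_
    rw [Matrix.inv_def, Ring.inverse_eq_inv', Matrix.smul_apply, smul_eq_mul]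
    field_simp
  rw [h1]
  have hd : 0 < A.det ^ 2 := by positivity
  calc ∑ i, adjc A i / A.det ^ 2 ≤ ∑ _i : Fin n, 1 / δ ^ 2 := by
        refine Finset.sum_le_sum fun i _ => ?_
        rw [div_le_div_iff₀ hd (by positivity)]
        have := h i
        linarith
    _ = n / δ ^ 2 := by
        rw [Finset.sum_const, Finset.card_univ, Fintype.card_fin, nsmul_eq_mul, mul_one_div]

/-! ### The algorithm with its output as an additional query -/

/-- the queries followed by the output -/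
def ext (q : ℕ) (qy : ℕ → Tr n → Fin n → ℝ) (out : Tr n → Fin n → ℝ) (i : ℕ) :
    Tr n → Fin n → ℝ := if i < q then qy i else out

theorem ext_tr (q : ℕ) (qy : ℕ → Tr n → Fin n → ℝ) (out : Tr n → Fin n → ℝ) (A : Mx n) :
    ∀ i ≤ q, tr (ext q qy out) A i = tr qy A i := by
  intro i
  induction i with
  | zero => intro _; rfl
  | succ i ih =>
    intro hi
    have h1 := ih (by omega)
    simp only [tr]
    rw [h1]
    have h2 : ext q qy out i = qy i := by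
      unfold ext
      rw [if_pos (by omega)]
    rw [h2]

theorem ext_out (q : ℕ) (qy : ℕ → Tr n → Fin n → ℝ) (out : Tr n → Fin n → ℝ) (A : Mx n) :
    vq (ext q qy out) A q = out (tr qy A q) := by
  unfold vq
  rw [ext_tr q qy out A q le_rfl]
  have h2 : ext q qy out q = out := by
    unfold ext
    rw [if_neg (lt_irrefl _)]
  rw [h2]

/-- the good event -/
def Good (n : ℕ) (A : Mx n) : Prop :=
  A.det ≠ 0 ∧ (∀ i, (1 / (20 * (n : ℝ))) ^ 2 * adjc A i ≤ A.det ^ 2) ∧ ip A A ≤ 20 * (n : ℝ) ^ 2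

/-- success on the good event forces a large sum of squared cosines -/
theorem success_imp (hn : 32 ≤ n) (q : ℕ) (qy : ℕ → Tr n → Fin n → ℝ) (out : Tr n → Fin n → ℝ)
    {b : Fin n → ℝ} (hb : b ≠ 0) {A : Mx n} (hA : Good n A)
    (hs : (A *ᵥ out (tr qy A q) - b) ⬝ᵥ (A *ᵥ out (tr qy A q) - b)
      ≤ (1 / (n : ℝ) ^ 4) ^ 2 * (b ⬝ᵥ b)) :
    3 / 4 ≤ ∑ i ∈ range (q + 1), cc (ext q qy out) b i A := by
  have hn0 : (32 : ℝ) ≤ n := by exact_mod_cast hn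
  set x := A⁻¹ *ᵥ b with hx
  set xh := out (tr qy A q) with hxh
  have hAx : A *ᵥ x = b := solve hA.1 b
  have hinv := inv_norm hA.1 (by positivity : (0 : ℝ) < 1 / (20 * n)) hA.2.1
  -- the error
  have h1 : A⁻¹ *ᵥ (A *ᵥ xh - b) = xh - x := by
    rw [Matrix.mulVec_sub, Matrix.mulVec_mulVec,
      Matrix.nonsing_inv_mul _ (isUnit_iff_ne_zero.2 hA.1), Matrix.one_mulVec]
  have h2 := mulVec_norm_le A⁻¹ (A *ᵥ xh - b)
  rw [h1] at h2
  have h3 := mulVec_norm_le A x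
  rw [hAx] at h3
  have hxx := dot_self_nonneg x
  have h4 : (xh - x) ⬝ᵥ (xh - x) ≤ 1 / 4 * (x ⬝ᵥ x) := by
    have hb' : b ⬝ᵥ b ≤ 20 * (n : ℝ) ^ 2 * (x ⬝ᵥ x) :=
      h3.trans (mul_le_mul_of_nonneg_right hA.2.2 hxx)
    have hr := dot_self_nonneg (A *ᵥ xh - b)
    have hrr : (A *ᵥ xh - b) ⬝ᵥ (A *ᵥ xh - b)
        ≤ (1 / (n : ℝ) ^ 4) ^ 2 * (20 * (n : ℝ) ^ 2 * (x ⬝ᵥ x)) :=
      hs.trans (mul_le_mul_of_nonneg_left hb' (by positivity))
    calc (xh - x) ⬝ᵥ (xh - x) ≤ ip A⁻¹ A⁻¹ * ((A *ᵥ xh - b) ⬝ᵥ (A *ᵥ xh - b)) := h2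
      _ ≤ (n / (1 / (20 * (n : ℝ))) ^ 2) * ((1 / (n : ℝ) ^ 4) ^ 2
          * (20 * (n : ℝ) ^ 2 * (x ⬝ᵥ x))) := mul_le_mul hinv hrr hr (by positivity)
      _ = (8000 / (n : ℝ) ^ 3) * (x ⬝ᵥ x) := by field_simp; ring
      _ ≤ 1 / 4 * (x ⬝ᵥ x) := by
          apply mul_le_mul_of_nonneg_right _ hxx
          rw [div_le_iff₀ (by positivity)]
          have : (32 : ℝ) ^ 3 ≤ (n : ℝ) ^ 3 := pow_le_pow_left₀ (by norm_num) hn0 3
          linarith
  -- the projection of the error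
  have h5 : pj (ext q qy out) A (q + 1) *ᵥ xh = 0 := by
    have := pj_kills (ext q qy out) A (Nat.lt_succ_self q)
    rw [ext_out] at this
    exact this
  have h6 : pj (ext q qy out) A (q + 1) *ᵥ (xh - x) = - (pj (ext q qy out) A (q + 1) *ᵥ x) := by
    rw [Matrix.mulVec_sub, h5, zero_sub]
  have h7 := pr_norm_le (pj_pr (ext q qy out) A (q + 1)) (xh - x)
  rw [h6, neg_dotProduct_neg] at h7
  have h8 := (tele (ext q qy out) b A (q + 1)).1
  rw [← hx] at h8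
  have hxpos : 0 < x ⬝ᵥ x := by
    refine lt_of_le_of_ne hxx fun h => hb ?_
    have := dot_self_eq_zero h.symm
    rw [← hAx, this, Matrix.mulVec_zero]
  have h9 : (x ⬝ᵥ x) * (1 - ∑ i ∈ range (q + 1), cc (ext q qy out) b i A)
      ≤ (x ⬝ᵥ x) * (1 / 4) := by linarith
  have h10 := le_of_mul_le_mul_left h9 hxpos
  linarith

theorem bad_prob (hn : 32 ≤ n) : (gM n) {A : Mx n | ¬ Good n A} ≤ ENNReal.ofReal (1 / 10) := by
  have hn0 : (32 : ℝ) ≤ n := by exact_mod_cast hn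
  have hsub : {A : Mx n | ¬ Good n A} ⊆ {A : Mx n | ¬ A.det ≠ 0} ∪
      ((⋃ i ∈ (univ : Finset (Fin n)), {A : Mx n | A.det ^ 2 < (1 / (20 * (n : ℝ))) ^ 2 * adjc A i})
        ∪ {A : Mx n | 20 * (n : ℝ) ^ 2 < ip A A}) := by
    intro A hA
    by_contra hcon
    apply hA
    simp only [Set.mem_union, not_or, Set.mem_iUnion, Finset.mem_univ, exists_prop, true_and,
      not_exists] at hcon
    refine ⟨?_, ?_, ?_⟩
    · exact not_not.1 hcon.1
    · intro i; exact not_lt.1 (hcon.2.1 i)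
    · exact not_lt.1 hcon.2.2
  have h1 : (gM n) {A : Mx n | ¬ A.det ≠ 0} = 0 := det_ne_zero (by omega)
  have h2 : (gM n) (⋃ i ∈ (univ : Finset (Fin n)),
      {A : Mx n | A.det ^ 2 < (1 / (20 * (n : ℝ))) ^ 2 * adjc A i}) ≤ ENNReal.ofReal (1 / 20) := by
    calc _ ≤ ∑ i : Fin n, (gM n) {A : Mx n | A.det ^ 2 < (1 / (20 * (n : ℝ))) ^ 2 * adjc A i} :=
          measure_biUnion_finset_le _ _
      _ ≤ ∑ _i : Fin n, ENNReal.ofReal (1 / (20 * (n : ℝ))) :=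
          Finset.sum_le_sum fun i _ => small_det i (by positivity)
      _ = ENNReal.ofReal (1 / 20) := by
          rw [← ENNReal.ofReal_sum_of_nonneg fun i _ => by positivity, Finset.sum_const,
            Finset.card_univ, Fintype.card_fin, nsmul_eq_mul]
          congr 1
          field_simp
  have h3 : (gM n) {A : Mx n | 20 * (n : ℝ) ^ 2 < ip A A} ≤ ENNReal.ofReal (1 / 20) := by
    refine (large_norm (by positivity)).trans (le_of_eq ?_)
    congr 1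
    field_simp
  calc (gM n) {A : Mx n | ¬ Good n A} ≤ _ := measure_mono hsub
    _ ≤ (gM n) {A : Mx n | ¬ A.det ≠ 0} + ((gM n) (⋃ i ∈ (univ : Finset (Fin n)),
        {A : Mx n | A.det ^ 2 < (1 / (20 * (n : ℝ))) ^ 2 * adjc A i})
        + (gM n) {A : Mx n | 20 * (n : ℝ) ^ 2 < ip A A}) :=
        (measure_union_le _ _).trans (add_le_add le_rfl (measure_union_le _ _))
    _ ≤ 0 + (ENNReal.ofReal (1 / 20) + ENNReal.ofReal (1 / 20)) := by
        rw [h1]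
        exact add_le_add le_rfl (add_le_add h2 h3)
    _ = ENNReal.ofReal (1 / 10) := by
        rw [zero_add, ← ENNReal.ofReal_add (by norm_num) (by norm_num)]
        norm_num

/-- the success probability of a deterministic algorithm with few queries -/
theorem det_bound (hn : 32 ≤ n) {q : ℕ} (hq : 8 * q ≤ n) {qy : ℕ → Tr n → Fin n → ℝ}
    {out : Tr n → Fin n → ℝ} (hqm : ∀ i, Measurable (qy i)) (hom : Measurable out)
    {b : Fin n → ℝ} (hb : b ≠ 0) :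
    (gM n) {A : Mx n | (A *ᵥ out (tr qy A q) - b) ⬝ᵥ (A *ᵥ out (tr qy A q) - b)
      ≤ (1 / (n : ℝ) ^ 4) ^ 2 * (b ⬝ᵥ b)} ≤ ENNReal.ofReal (2 / 5) := by
  have hn0 : (32 : ℝ) ≤ n := by exact_mod_cast hn
  have hq8 : (8 : ℝ) * q ≤ n := by exact_mod_cast hq
  have hext : ∀ i, Measurable (ext q qy out i) := by
    intro i
    unfold ext
    split_ifs
    · exact hqm i
    · exact hom
  have hdet := det_ne_zero (n := n) (by omega)
  set S : Mx n → ℝ := fun A => ∑ i ∈ range (q + 1), cc (ext q qy out) b i A with hS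
  have hSint : Integrable S (gM n) := integrable_finsetSum _ fun i _ => cc_integrable hext b i
  have hS0 : ∀ A, 0 ≤ S A := fun A => Finset.sum_nonneg fun i _ => cc_nonneg _ _ _ _
  have hmean : ∫ A, S A ∂(gM n) ≤ 5 / 24 := by
    rw [hS, integral_finsetSum _ fun i _ => cc_integrable hext b i]
    calc ∑ i ∈ range (q + 1), ∫ A, cc (ext q qy out) b i A ∂(gM n)
        ≤ ∑ _i ∈ range (q + 1), 4 / (3 * (n : ℝ)) := by
          refine Finset.sum_le_sum fun i hi => ?_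
          rw [Finset.mem_range] at hi
          refine (cc_mean hext hb (i := i) (by omega) hdet).trans ?_
          have hi' : (i : ℝ) ≤ q := by exact_mod_cast Nat.lt_succ_iff.1 hi
          rw [div_le_div_iff₀ (by linarith) (by positivity)]
          linarith
      _ = (q + 1) * (4 / (3 * (n : ℝ))) := by
          rw [Finset.sum_const, Finset.card_range, nsmul_eq_mul]; push_cast; ring
      _ ≤ 5 / 24 := by
          rw [mul_div_assoc', div_le_div_iff₀ (by positivity) (by norm_num)]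
          linarith
  have hmarkov := mul_meas_ge_le_integral_of_nonneg
    (Filter.Eventually.of_forall hS0) hSint (3 / 4)
  have h1 : (gM n).real {A | 3 / 4 ≤ S A} ≤ 3 / 10 := by linarith
  have hsub : {A : Mx n | (A *ᵥ out (tr qy A q) - b) ⬝ᵥ (A *ᵥ out (tr qy A q) - b)
      ≤ (1 / (n : ℝ) ^ 4) ^ 2 * (b ⬝ᵥ b)} ⊆ {A | 3 / 4 ≤ S A} ∪ {A : Mx n | ¬ Good n A} := by
    intro A hA
    by_cases hg : Good n A
    · left
      exact success_imp hn q qy out hb hg hA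
    · right
      exact hg
  calc _ ≤ (gM n) ({A | 3 / 4 ≤ S A} ∪ {A : Mx n | ¬ Good n A}) := measure_mono hsub
    _ ≤ (gM n) {A | 3 / 4 ≤ S A} + (gM n) {A : Mx n | ¬ Good n A} := measure_union_le _ _
    _ ≤ ENNReal.ofReal (3 / 10) + ENNReal.ofReal (1 / 10) := by
        apply add_le_add _ (bad_prob hn)
        rw [← ofReal_measureReal]
        exact ENNReal.ofReal_le_ofReal h1
    _ = ENNReal.ofReal (2 / 5) := by
        rw [← ENNReal.ofReal_add (by norm_num) (by norm_num)]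
        norm_num

end Pool.Agent.R563.MV
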