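import Pool.Agent.R563.MV.Base

set_option autoImplicit false

/-! # Removing directions from a projection -/

noncomputable section

namespace Pool.Agent.R563.MV

open Finset Matrix

variable {n : ℕ}

/-- remove the direction of `v` from the range of `P` -/
def stepP (P : Mx n) (v : Fin n → ℝ) : Mx n :=
  P - ((P *ᵥ v) ⬝ᵥ (P *ᵥ v))⁻¹ • vecMulVec (P *ᵥ v) (P *ᵥ v)

theorem IsPr.one : IsPr (1 : Mx n) := ⟨transpose_one, mul_one 1⟩

theorem IsPr.dot {P : Mx n} (hP : IsPr P) (x y : Fin n → ℝ) :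
    (P *ᵥ x) ⬝ᵥ y = x ⬝ᵥ (P *ᵥ y) := by
  rw [dotProduct_comm, Matrix.dotProduct_mulVec, ← Matrix.mulVec_transpose, hP.symm,
    dotProduct_comm]

theorem IsPr.mulVec_idem {P : Mx n} (hP : IsPr P) (x : Fin n → ℝ) : P *ᵥ (P *ᵥ x) = P *ᵥ x := by
  rw [Matrix.mulVec_mulVec, hP.idem]

theorem dot_self_eq_zero {x : Fin n → ℝ} (h : x ⬝ᵥ x = 0) : x = 0 :=
  dotProduct_self_eq_zero.1 h

theorem vecMulVec_self_transpose (w : Fin n → ℝ) : (vecMulVec w w)ᵀ = vecMulVec w w := by
  ext i j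
  simp [vecMulVec_apply, mul_comm]

theorem IsPr.step {P : Mx n} (hP : IsPr P) (v : Fin n → ℝ) : IsPr (stepP P v) := by
  unfold stepP
  set w := P *ᵥ v with hw
  have hPw : P *ᵥ w = w := by rw [hw]; exact hP.mulVec_idem v
  constructor
  · rw [transpose_sub, transpose_smul, hP.symm, vecMulVec_self_transpose]
  · have e1 : P * vecMulVec w w = vecMulVec w w := by
      rw [Matrix.mul_vecMulVec, hPw]
    have e2 : vecMulVec w w * P = vecMulVec w w := by
      rw [Matrix.vecMulVec_mul, ← Matrix.mulVec_transpose, hP.symm, hPw]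
    have e3 : vecMulVec w w * vecMulVec w w = (w ⬝ᵥ w) • vecMulVec w w := by
      rw [Matrix.vecMulVec_mul_vecMulVec]
      ext i j
      simp [vecMulVec_apply, mul_comm, mul_left_comm]
    rw [sub_mul, mul_sub, mul_sub, Matrix.mul_smul, Matrix.smul_mul, Matrix.smul_mul,
      Matrix.mul_smul, e1, e2, e3, hP.idem]
    by_cases hs : w ⬝ᵥ w = 0
    · rw [hs]; simp
    · have e4 : ((w ⬝ᵥ w)⁻¹ * (w ⬝ᵥ w)⁻¹ * w ⬝ᵥ w) = (w ⬝ᵥ w)⁻¹ := by
        field_simp
      rw [smul_smul, smul_smul, e4]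
      abel

theorem step_mulVec {P : Mx n} (hP : IsPr P) (v : Fin n → ℝ) : stepP P v *ᵥ v = 0 := by
  unfold stepP
  set w := P *ᵥ v with hw
  have h1 : w ⬝ᵥ v = w ⬝ᵥ w := by
    rw [hw, hP.dot, hP.dot, hP.mulVec_idem]
  rw [Matrix.sub_mulVec, Matrix.smul_mulVec, Matrix.vecMulVec_mulVec, ← hw]
  by_cases hs : w ⬝ᵥ w = 0
  · rw [dot_self_eq_zero hs]; simp
  · ext k
    simp only [Pi.sub_apply, Pi.smul_apply, MulOpposite.smul_eq_mul_unop, MulOpposite.unop_op,
      smul_eq_mul, Pi.zero_apply]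
    rw [h1]
    field_simp
    ring

theorem step_mul {P : Mx n} (hP : IsPr P) (v : Fin n → ℝ) : stepP P v * P = stepP P v := by
  unfold stepP
  rw [sub_mul, hP.idem, Matrix.smul_mul, Matrix.vecMulVec_mul, ← Matrix.mulVec_transpose,
    hP.symm, hP.mulVec_idem]

theorem step_kill {P M : Mx n} (v : Fin n → ℝ) (h1 : M * (1 - P) = 0) (h2 : M *ᵥ v = 0) :
    M * (1 - stepP P v) = 0 := by
  unfold stepP
  have h3 : M *ᵥ (P *ᵥ v) = 0 := by
    have h4 : M * P = M := by
      rw [mul_sub, mul_one, sub_eq_zero] at h1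
      exact h1.symm
    rw [Matrix.mulVec_mulVec, h4, h2]
  have h5 : (1 : Mx n) - (P - ((P *ᵥ v) ⬝ᵥ (P *ᵥ v))⁻¹ • vecMulVec (P *ᵥ v) (P *ᵥ v))
      = (1 - P) + ((P *ᵥ v) ⬝ᵥ (P *ᵥ v))⁻¹ • vecMulVec (P *ᵥ v) (P *ᵥ v) := by abel
  rw [h5, mul_add, h1, zero_add, Matrix.mul_smul, Matrix.mul_vecMulVec, h3]
  simp

theorem rank_add_le' (A B : Mx n) : (A + B).rank ≤ A.rank + B.rank := by
  unfold Matrix.rank
  have h1 : LinearMap.range (A + B).mulVecLin
      ≤ LinearMap.range A.mulVecLin ⊔ LinearMap.range B.mulVecLin := by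
    rintro x ⟨y, rfl⟩
    rw [Matrix.mulVecLin_apply, Matrix.add_mulVec]
    exact Submodule.add_mem_sup ⟨y, rfl⟩ ⟨y, rfl⟩
  exact (Submodule.finrank_mono h1).trans (Submodule.finrank_add_le_finrank_add_finrank _ _)

theorem rank_step (P : Mx n) (v : Fin n → ℝ) :
    (1 - stepP P v).rank ≤ (1 - P).rank + 1 := by
  unfold stepP
  have h5 : (1 : Mx n) - (P - ((P *ᵥ v) ⬝ᵥ (P *ᵥ v))⁻¹ • vecMulVec (P *ᵥ v) (P *ᵥ v))
      = (1 - P) + vecMulVec (((P *ᵥ v) ⬝ᵥ (P *ᵥ v))⁻¹ • (P *ᵥ v)) (P *ᵥ v) := by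
    rw [Matrix.smul_vecMulVec]; abel
  rw [h5]
  exact (rank_add_le' _ _).trans (Nat.add_le_add_left (Matrix.rank_vecMulVec_le _ _) _)

/-- removing a list of directions -/
def remL (P : Mx n) (vs : List (Fin n → ℝ)) : Mx n := vs.foldl stepP P

theorem remL_pr {P : Mx n} (hP : IsPr P) (vs : List (Fin n → ℝ)) : IsPr (remL P vs) := by
  induction vs generalizing P with
  | nil => exact hP
  | cons v vs ih => exact ih (hP.step v)

theorem remL_mul {P : Mx n} (hP : IsPr P) (vs : List (Fin n → ℝ)) : remL P vs * P = remL P vs := by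
  induction vs generalizing P with
  | nil => exact hP.idem
  | cons v vs ih =>
    have h1 := ih (hP.step v)
    change remL (stepP P v) vs * P = remL (stepP P v) vs
    rw [← h1, Matrix.mul_assoc, step_mul hP]

theorem remL_kills {P : Mx n} (hP : IsPr P) (vs : List (Fin n → ℝ)) :
    ∀ v ∈ vs, remL P vs *ᵥ v = 0 := by
  induction vs generalizing P with
  | nil => intro v hv; exact absurd hv (by simp)
  | cons v vs ih =>
    intro v' hv'
    change remL (stepP P v) vs *ᵥ v' = 0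
    rcases List.mem_cons.1 hv' with h | h
    · subst h
      rw [← remL_mul (hP.step v') vs, ← Matrix.mulVec_mulVec, step_mulVec hP, Matrix.mulVec_zero]
    · exact ih (hP.step v) v' h

theorem remL_kill {P M : Mx n} (vs : List (Fin n → ℝ)) (h1 : M * (1 - P) = 0)
    (h2 : ∀ v ∈ vs, M *ᵥ v = 0) : M * (1 - remL P vs) = 0 := by
  induction vs generalizing P with
  | nil => exact h1
  | cons v vs ih =>
    exact ih (step_kill v h1 (h2 v (by simp))) fun v' hv' => h2 v' (by simp [hv'])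

theorem rank_remL (P : Mx n) (vs : List (Fin n → ℝ)) :
    (1 - remL P vs).rank ≤ (1 - P).rank + vs.length := by
  induction vs generalizing P with
  | nil => simp [remL]
  | cons v vs ih =>
    have h1 := ih (stepP P v)
    have h2 := rank_step P v
    change (1 - remL (stepP P v) vs).rank ≤ _
    rw [List.length_cons]
    omega

end Pool.Agent.R563.MV
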