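import Pool.Agent.R563.MV.Core2

set_option autoImplicit false

/-! # Adaptive queries and resampling -/

noncomputable section

namespace Pool.Agent.R563.MV

open MeasureTheory ProbabilityTheory Finset Matrix

variable {n : ℕ}

/-- transcripts: the pairs `(A v, Aᵀ v)` of answers -/
abbrev Tr (n : ℕ) : Type := ℕ → (Fin n → ℝ) × (Fin n → ℝ)

/-- the transcript of the first `i` queries -/
def tr (qy : ℕ → Tr n → Fin n → ℝ) (A : Mx n) : ℕ → Tr n
  | 0 => fun _ => 0
  | i + 1 => Function.update (tr qy A i) i
      (A *ᵥ qy i (tr qy A i), Aᵀ *ᵥ qy i (tr qy A i))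

/-- the `i`-th query -/
def vq (qy : ℕ → Tr n → Fin n → ℝ) (A : Mx n) (i : ℕ) : Fin n → ℝ := qy i (tr qy A i)

/-- the first `i` queries -/
def qs (qy : ℕ → Tr n → Fin n → ℝ) (A : Mx n) (i : ℕ) : List (Fin n → ℝ) :=
  (List.range i).map (vq qy A)

/-- the projection orthogonal to the first `i` queries -/
def pj (qy : ℕ → Tr n → Fin n → ℝ) (A : Mx n) (i : ℕ) : Mx n := remL 1 (qs qy A i)

theorem pj_succ (qy : ℕ → Tr n → Fin n → ℝ) (A : Mx n) (i : ℕ) :
    pj qy A (i + 1) = stepP (pj qy A i) (vq qy A i) := by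
  unfold pj remL qs
  rw [List.range_succ, List.map_append, List.foldl_append]
  rfl

theorem pj_pr (qy : ℕ → Tr n → Fin n → ℝ) (A : Mx n) (i : ℕ) : IsPr (pj qy A i) :=
  remL_pr IsPr.one _

theorem pj_kills (qy : ℕ → Tr n → Fin n → ℝ) (A : Mx n) {i j : ℕ} (h : i < j) :
    pj qy A j *ᵥ vq qy A i = 0 := by
  apply remL_kills IsPr.one
  unfold qs
  rw [List.mem_map]
  exact ⟨i, List.mem_range.2 h, rfl⟩

/-! ### Measurability -/

theorem measurable_tr {qy : ℕ → Tr n → Fin n → ℝ} (hq : ∀ i, Measurable (qy i)) (i : ℕ) :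
    Measurable fun A : Mx n => tr qy A i := by
  induction i with
  | zero => exact measurable_const
  | succ i ih =>
    have hv : Measurable fun A : Mx n => qy i (tr qy A i) := (hq i).comp ih
    have h1 : Measurable fun A : Mx n => A *ᵥ qy i (tr qy A i) := by
      have hc : Continuous fun p : Mx n × (Fin n → ℝ) => p.1 *ᵥ p.2 :=
        continuous_fst.matrix_mulVec continuous_snd
      exact hc.measurable.comp (measurable_id.prodMk hv)
    have h2 : Measurable fun A : Mx n => Aᵀ *ᵥ qy i (tr qy A i) := by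
      have hc : Continuous fun p : Mx n × (Fin n → ℝ) => p.1ᵀ *ᵥ p.2 :=
        continuous_fst.matrix_transpose.matrix_mulVec continuous_snd
      exact hc.measurable.comp (measurable_id.prodMk hv)
    apply measurable_pi_lambda
    intro j
    by_cases hj : j = i
    · subst hj
      simp only [tr, Function.update_self]
      exact h1.prodMk h2
    · simp only [tr, Function.update_of_ne hj]
      exact (measurable_pi_apply j).comp ih

theorem measurable_vq {qy : ℕ → Tr n → Fin n → ℝ} (hq : ∀ i, Measurable (qy i)) (i : ℕ) :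
    Measurable fun A : Mx n => vq qy A i := (hq i).comp (measurable_tr hq i)

theorem measurable_stepP {Ω : Type} [MeasurableSpace Ω] {P : Ω → Mx n} {v : Ω → Fin n → ℝ}
    (hP : Measurable P) (hv : Measurable v) : Measurable fun ω => stepP (P ω) (v ω) := by
  have hw : Measurable fun ω => P ω *ᵥ v ω := by
    have hc : Continuous fun p : Mx n × (Fin n → ℝ) => p.1 *ᵥ p.2 :=
      continuous_fst.matrix_mulVec continuous_snd
    exact hc.measurable.comp (hP.prodMk hv)
  have hs : Measurable fun ω => (P ω *ᵥ v ω) ⬝ᵥ (P ω *ᵥ v ω) := by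
    have : Continuous fun x : Fin n → ℝ => x ⬝ᵥ x := by fun_prop
    exact this.measurable.comp hw
  apply measurable_mx_of
  intro i j
  simp only [stepP, Matrix.sub_apply, Matrix.smul_apply, vecMulVec_apply, smul_eq_mul]
  exact ((measurable_entry i j).comp hP).sub (hs.inv.mul
    (((measurable_pi_apply i).comp hw).mul ((measurable_pi_apply j).comp hw)))

theorem measurable_pj {qy : ℕ → Tr n → Fin n → ℝ} (hq : ∀ i, Measurable (qy i)) (i : ℕ) :
    Measurable fun A : Mx n => pj qy A i := by
  induction i with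
  | zero => exact measurable_const
  | succ i ih =>
    simp only [pj_succ]
    exact measurable_stepP ih (measurable_vq hq i)

/-! ### Resampling -/

/-- replace the unknown block by an independent copy -/
def rs (qy : ℕ → Tr n → Fin n → ℝ) (i : ℕ) (A G : Mx n) : Mx n :=
  A - pj qy A i * A * pj qy A i + pj qy A i * G * pj qy A i

theorem measurable_rs {qy : ℕ → Tr n → Fin n → ℝ} (hq : ∀ i, Measurable (qy i)) (i : ℕ) :
    Measurable fun p : Mx n × Mx n => rs qy i p.1 p.2 := by
  have h1 : Continuous fun p : (Mx n × Mx n) × Mx n => p.1.1 - p.2 * p.1.1 * p.2 + p.2 * p.1.2 * p.2 := by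
    fun_prop
  exact h1.measurable.comp (measurable_id.prodMk ((measurable_pj hq i).comp measurable_fst))

theorem rs_tr (qy : ℕ → Tr n → Fin n → ℝ) (j : ℕ) (A G : Mx n) :
    ∀ i ≤ j, tr qy (rs qy j A G) i = tr qy A i := by
  intro i
  induction i with
  | zero => intro _; rfl
  | succ i ih =>
    intro hi
    have h1 := ih (by omega)
    have h2 : pj qy A j *ᵥ vq qy A i = 0 := pj_kills qy A (by omega)
    unfold vq at h2
    simp only [tr]
    rw [h1]
    congr 1
    have hz : ∀ B : Mx n, (pj qy A j * B * pj qy A j) *ᵥ qy i (tr qy A i) = 0 := by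
      intro B
      rw [← Matrix.mulVec_mulVec, h2, Matrix.mulVec_zero]
    have h3 : rs qy j A G *ᵥ qy i (tr qy A i) = A *ᵥ qy i (tr qy A i) := by
      unfold rs
      rw [Matrix.add_mulVec, Matrix.sub_mulVec, hz, hz, sub_zero, add_zero]
    have h4 : (rs qy j A G)ᵀ *ᵥ qy i (tr qy A i) = Aᵀ *ᵥ qy i (tr qy A i) := by
      unfold rs
      rw [transpose_add, transpose_sub, transpose_mul, transpose_mul, transpose_mul,
        transpose_mul, (pj_pr qy A j).symm, Matrix.add_mulVec, Matrix.sub_mulVec,
        ← Matrix.mul_assoc, ← Matrix.mul_assoc, hz, hz, sub_zero, add_zero]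
    rw [h3, h4]

theorem rs_vq (qy : ℕ → Tr n → Fin n → ℝ) (j : ℕ) (A G : Mx n) {i : ℕ} (hi : i ≤ j) :
    vq qy (rs qy j A G) i = vq qy A i := by
  unfold vq
  rw [rs_tr qy j A G i hi]

theorem rs_pj (qy : ℕ → Tr n → Fin n → ℝ) (j : ℕ) (A G : Mx n) {i : ℕ} (hi : i ≤ j + 1) :
    pj qy (rs qy j A G) i = pj qy A i := by
  unfold pj qs
  congr 1
  apply List.map_congr_left
  intro k hk
  rw [List.mem_range] at hk
  exact rs_vq qy j A G (by omega)

/-- resampling preserves the law -/
theorem resample {qy : ℕ → Tr n → Fin n → ℝ} (hq : ∀ i, Measurable (qy i)) (j : ℕ) :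
    ((gM n).prod (gM n)).map (fun p => rs qy j p.1 p.2) = gM n := by
  induction j with
  | zero =>
    have h1 : (fun p : Mx n × Mx n => rs qy 0 p.1 p.2) = Prod.snd := by
      funext p
      simp [rs, pj, qs, remL]
    rw [h1, Measure.map_snd_prod, measure_univ, one_smul]
  | succ j ih =>
    refine Measure.ext_of_lintegral _ fun F hF => ?_
    have hrs := measurable_rs hq j
    have hrs' := measurable_rs hq (j + 1)
    -- the induction hypothesis for functions
    have IH : ∀ H : Mx n → ENNReal, Measurable H →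
        ∫⁻ A, H A ∂(gM n) = ∫⁻ A, ∫⁻ G, H (rs qy j A G) ∂(gM n) ∂(gM n) := by
      intro H hH
      conv_lhs => rw [← ih]
      rw [lintegral_map hH hrs, lintegral_prod (fun p : Mx n × Mx n => H (rs qy j p.1 p.2))
        (hH.comp hrs).aemeasurable]
    have hΨ : Measurable fun A : Mx n => ∫⁻ G, F (rs qy (j + 1) A G) ∂(gM n) :=
      Measurable.lintegral_prod_right' (hF.comp hrs')
    rw [lintegral_map hF hrs', lintegral_prod (fun p : Mx n × Mx n => F (rs qy (j + 1) p.1 p.2))
      (hF.comp hrs').aemeasurable, IH _ hΨ, IH F hF]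
    refine lintegral_congr fun A => ?_
    set P := pj qy A j with hP
    set P' := pj qy A (j + 1) with hP'
    have hPp : IsPr P := pj_pr qy A j
    have hPp' : IsPr P' := pj_pr qy A (j + 1)
    have e1 : P' * P = P' := by
      rw [hP', pj_succ]; exact step_mul hPp _
    have e2 : P * P' = P' := by
      have := congrArg Matrix.transpose e1
      rwa [transpose_mul, hPp.symm, hPp'.symm] at this
    have h2 : ∀ G1 G2 : Mx n, rs qy (j + 1) (rs qy j A G1) G2
        = rs qy j A ((G1 - P' * G1 * P') + P' * G2 * P') := by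
      intro G1 G2
      have h3 : pj qy (rs qy j A G1) (j + 1) = P' := rs_pj qy j A G1 le_rfl
      unfold rs at h3 ⊢
      rw [h3, ← hP]
      have h4 : P' * (A - P * A * P + P * G1 * P) * P' = P' * G1 * P' := by
        have h5 : P' * (P * A * P) * P' = P' * A * P' := by
          rw [← mul_assoc, ← mul_assoc, e1, mul_assoc (P' * A), e2]
        have h6 : P' * (P * G1 * P) * P' = P' * G1 * P' := by
          rw [← mul_assoc, ← mul_assoc, e1, mul_assoc (P' * G1), e2]
        rw [mul_add, add_mul, mul_sub, sub_mul, h5, h6]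
        abel
      have h7 : P * ((G1 - P' * G1 * P') + P' * G2 * P') * P
          = P * G1 * P - P' * G1 * P' + P' * G2 * P' := by
        have h8 : ∀ G : Mx n, P * (P' * G * P') * P = P' * G * P' := by
          intro G
          rw [← mul_assoc, ← mul_assoc, e2, mul_assoc (P' * G), e1]
        rw [mul_add, add_mul, mul_sub, sub_mul, h8, h8]
      rw [h4, h7]
      abel
    simp only [h2]
    have h9 : Measurable fun G : Mx n => F (rs qy j A G) :=
      (hF.comp hrs).comp (measurable_const.prodMk measurable_id)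
    have hmixm : Measurable fun p : Mx n × Mx n => (p.1 - P' * p.1 * P') + P' * p.2 * P' := by
      have : Continuous fun p : Mx n × Mx n => (p.1 - P' * p.1 * P') + P' * p.2 * P' := by
        fun_prop
      exact this.measurable
    conv_rhs => rw [← mix_block hPp' hPp']
    rw [lintegral_map h9 hmixm, lintegral_prod (fun p : Mx n × Mx n =>
      F (rs qy j A ((p.1 - P' * p.1 * P') + P' * p.2 * P'))) (h9.comp hmixm).aemeasurable]

end Pool.Agent.R563.MV
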